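import Pool.Agent.Helper14.MT1.St1
import Pool.Agent.Helper89.MG.Typf

/-! ST 1 without hypotheses (with helper89's theorem on typical values). -/

set_option autoImplicit false

namespace Pool.Agent.Helper14.MT1

open Finset Filter Topology Matrix Pool.Agent.Helper69.RK Pool.Agent.Helper31.EC Pool.Agent.Helper31.EC.Sp
open Pool.Agent.Helper40.EL Pool.Agent.Helper84.MT

noncomputable section

theorem typD : TypD := fun _ _ _ _ l f N K hK hfn hf => Pool.Agent.Helper89.LX.typd0 l f N K hK hfn hf

/-- ST 1 -/
theorem st_one' : ST 1 := st_one typD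

end

end Pool.Agent.Helper14.MT1
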