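import Pool.Agent.Helper59.EV.Vol
import Pool.Agent.Helper31.EC.Rest

/-! ST 1: finite lemmas for the lower bound of the entropy of the point. -/

set_option autoImplicit false

namespace Pool.Agent.Helper14.MT1

open Finset Filter Topology Pool.Agent.Helper69.RK Pool.Agent.Helper31.EC
open Pool.Agent.Helper59.EV (CH_lab CH_cardv)
open Pool.Agent.Helper59.EN (mass_nn res_nn CH_card)

noncomputable section

theorem CH_lab1 {Ω α γ : Type} [Fintype Ω] (μ : Ω → ℝ) (f : Ω → α) (g : Ω → γ) (j : Ω → ℕ) (J : ℕ)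
    (hμ : ∀ ω, 0 ≤ μ ω) (hm : mass μ ≤ 1) (hj : ∀ ω, μ ω ≠ 0 → j ω ≤ J) :
    CH μ f g ≤ Real.logb 2 (J + 1) + CH μ f (fun ω => (g ω, j ω)) := by
  have h1 := e1_chain μ j f g
  have h2 : CH μ f g ≤ CH μ (fun ω => (j ω, f ω)) g := by
    apply (st_E2 st_E1).1 Ω _ _ _ μ _ _ _ hμ
    intro ω ω' _ _ h3
    rw [Prod.mk.injEq, Prod.mk.injEq] at h3
    exact h3.1.2
  have h3 : CH μ j g ≤ mass μ * Real.logb 2 (J + 1) := by
    apply CH_card μ j g _ hμ
    intro ω _ T hT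
    have h4 : T ⊆ Finset.range (J + 1) := by
      intro i hi
      obtain ⟨ω', h5, _, rfl⟩ := hT i hi
      rw [Finset.mem_range]
      exact Nat.lt_succ_of_le (hj ω' h5)
    have h5 := Finset.card_le_card h4
    rw [Finset.card_range] at h5
    exact_mod_cast h5
  have h4 : CH μ f (fun ω => (j ω, g ω)) = CH μ f (fun ω => (g ω, j ω)) := by
    apply e2_CH_congr
    · intro ω ω' _ _
      rw [Prod.mk.injEq, Prod.mk.injEq]
      exact and_comm
    · intro ω ω' _ _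
      rw [Prod.mk.injEq, Prod.mk.injEq, Prod.mk.injEq, Prod.mk.injEq]
      exact and_congr Iff.rfl and_comm
  rw [h4] at h1
  have h5 : 0 ≤ Real.logb 2 ((J : ℝ) + 1) := Real.logb_nonneg (by norm_num) (by
    have : (0 : ℝ) ≤ J := Nat.cast_nonneg J
    linarith)
  have h6 : mass μ * Real.logb 2 (J + 1) ≤ 1 * Real.logb 2 (J + 1) := mul_le_mul_of_nonneg_right hm h5
  linarith

/-- one type on its event -/
theorem fin_low {Ω α β γ δ : Type} [Fintype Ω] (μ : Ω → ℝ) (hμ : ∀ ω, 0 ≤ μ ω) (hm : mass μ = 1) (X : Ω → α)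
    (V : Ω → γ) (Y : Ω → β) (W : Ω → δ) (A G : Ω → Prop) (d : Ω → ℕ) (Dn : ℕ) (c : Ω → ℝ) (u : ℝ)
    (hd : ∀ ω, μ ω ≠ 0 → d ω ≤ Dn)
    (hu : ∀ ω, μ ω ≠ 0 → ∀ T : Finset β, (∀ a ∈ T, ∃ ω', μ ω' ≠ 0 ∧ V ω' = V ω ∧ W ω' = W ω ∧ Y ω' = a) →
      (T.card : ℝ) ≤ 2 ^ u)
    (hc : ∀ ω, μ ω ≠ 0 → G ω → ∀ T : Finset β, (∀ a ∈ T, ∃ ω', μ ω' ≠ 0 ∧ G ω' ∧ d ω' = d ω ∧ X ω' = X ω ∧
      V ω' = V ω ∧ W ω' = W ω ∧ Y ω' = a) → (T.card : ℝ) ≤ c ω) (b : Ω → ℝ) (r : ℝ) (hr : 0 ≤ r)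
    (hb1 : ∀ ω, μ ω ≠ 0 → A ω → G ω → Real.logb 2 (c ω) ≤ b ω)
    (hb2 : ∀ ω, μ ω ≠ 0 → A ω → u ≤ b ω + r) :
    CH μ Y (fun ω => (W ω, V ω)) - (1 - mass (res μ A)) * u - ∑ ω, res μ A ω * b ω -
      mass (res μ (fun ω => ¬ G ω)) * r - Real.logb 2 (Dn + 1) - 2 ≤ CH (res μ A) X V := by
  classical
  set ν := res μ A with hν
  have hν0 : ∀ ω, 0 ≤ ν ω := res_nn μ A hμ
  have hsplit := ((st_E4 st_E1 st_E3).2.2 Ω μ A hμ)
  have hνm : mass ν ≤ 1 := by
    have h1 := ((st_E4 st_E1 st_E3).2.2 Ω μ (fun ω => ¬ A ω) hμ).2.1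
    linarith [hsplit.1]
  have hsup : ∀ ω, ν ω ≠ 0 → μ ω ≠ 0 ∧ A ω := by
    intro ω h
    by_cases hA : A ω
    · refine ⟨?_, hA⟩
      have e1 : ν ω = μ ω := res_pos _ _ _ hA
      rwa [e1] at h
    · have e1 : ν ω = 0 := res_neg _ _ _ hA
      exact absurd e1 h
  -- the point against the parameter
  have a1 : CH ν X (fun ω => (W ω, V ω)) ≤ CH ν X V := (st_E1 Ω α δ γ ν X W V hν0).2.2
  have a2 : CH ν (fun ω => (X ω, Y ω)) (fun ω => (W ω, V ω)) = CH ν X (fun ω => (W ω, V ω)) +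
      CH ν Y (fun ω => (X ω, (W ω, V ω))) := (st_E1 Ω α β (δ × γ) ν X Y (fun ω => (W ω, V ω)) hν0).2.1
  have a3 : CH ν Y (fun ω => (W ω, V ω)) ≤ CH ν (fun ω => (X ω, Y ω)) (fun ω => (W ω, V ω)) := by
    apply (st_E2 st_E1).1 Ω _ _ _ ν _ _ _ hν0
    intro ω ω' _ _ h3
    rw [Prod.mk.injEq, Prod.mk.injEq] at h3
    exact h3.1.2
  -- the parameter given the point
  have a4 := CH_lab1 ν Y (fun ω => (X ω, (W ω, V ω))) d Dn hν0 hνm (fun ω hω => hd ω (hsup ω hω).1)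
  have a5 := CH_lab1 ν Y (fun ω => ((X ω, (W ω, V ω)), d ω)) (fun ω => if G ω then 1 else 0) 1 hν0 hνm (by
    intro ω _
    split_ifs <;> omega)
  have e2 : Real.logb 2 ((1 : ℕ) + 1) = 1 := by norm_num
  rw [e2] at a5
  have a6 := CH_cardv ν Y (fun ω => (((X ω, (W ω, V ω)), d ω), (if G ω then 1 else 0 : ℕ)))
    (fun ω => if G ω then c ω else 2 ^ u) hν0 (by
    intro ω hω T hT
    by_cases hG : G ω
    · rw [if_pos hG]
      apply hc ω (hsup ω hω).1 hG
      intro a ha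
      obtain ⟨ω', h1, h2, h3⟩ := hT a ha
      simp only [Prod.mk.injEq] at h2
      obtain ⟨⟨⟨h4, h5, h6⟩, h7⟩, h8⟩ := h2
      have hG' : G ω' := by
        by_contra hc1
        rw [if_pos hG, if_neg hc1] at h8
        exact absurd h8 (by norm_num)
      exact ⟨ω', (hsup ω' h1).1, hG', h7, h4, h6, h5, h3⟩
    · rw [if_neg hG]
      apply hu ω (hsup ω hω).1
      intro a ha
      obtain ⟨ω', h1, h2, h3⟩ := hT a ha
      simp only [Prod.mk.injEq] at h2
      obtain ⟨⟨⟨h4, h5, h6⟩, h7⟩, h8⟩ := h2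
      exact ⟨ω', (hsup ω' h1).1, h6, h5, h3⟩)
  have a7 : ∑ ω, ν ω * Real.logb 2 (if G ω then c ω else 2 ^ u) ≤ ∑ ω, ν ω * b ω +
      mass (res μ (fun ω => ¬ G ω)) * r := by
    have h1 : ∀ ω, ν ω * Real.logb 2 (if G ω then c ω else 2 ^ u) ≤ ν ω * b ω + res μ (fun ω => ¬ G ω) ω * r := by
      intro ω
      by_cases h0 : ν ω = 0
      · rw [h0, zero_mul, zero_mul, zero_add]
        exact mul_nonneg (res_nn _ _ hμ ω) hr
      · obtain ⟨h2, h3⟩ := hsup ω h0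
        by_cases hG : G ω
        · rw [if_pos hG]
          have e3 : res μ (fun ω => ¬ G ω) ω = 0 := res_neg _ _ _ (not_not.2 hG)
          rw [e3, zero_mul, add_zero]
          exact mul_le_mul_of_nonneg_left (hb1 ω h2 h3 hG) (hν0 ω)
        · rw [if_neg hG, Real.logb_rpow (by norm_num) (by norm_num)]
          have e3 : res μ (fun ω => ¬ G ω) ω = μ ω := res_pos _ _ _ hG
          have e4 : ν ω = μ ω := res_pos _ _ _ h3
          rw [e3, e4, ← mul_add]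
          exact mul_le_mul_of_nonneg_left (hb2 ω h2 h3) (hμ ω)
    refine (Finset.sum_le_sum fun ω _ => h1 ω).trans (le_of_eq ?_)
    rw [Finset.sum_add_distrib, ← Finset.sum_mul]
    rfl
  -- the parameter on the event
  have b1 := ((st_E4 st_E1 st_E3).2.1 Ω β (δ × γ) μ Y (fun ω => (W ω, V ω)) A hμ).2
  have b2 : CH (res μ (fun ω => ¬ A ω)) Y (fun ω => (W ω, V ω)) ≤ mass (res μ (fun ω => ¬ A ω)) * u := by
    have h1 := CH_card (res μ (fun ω => ¬ A ω)) Y (fun ω => (W ω, V ω)) (2 ^ u) (res_nn _ _ hμ) (by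
      intro ω hω T hT
      have hs : ∀ ω, res μ (fun ω => ¬ A ω) ω ≠ 0 → μ ω ≠ 0 := by
        intro ω h h0
        apply h
        unfold res
        split_ifs
        · exact h0
        · rfl
      apply hu ω (hs ω hω)
      intro a ha
      obtain ⟨ω', h1, h2, h3⟩ := hT a ha
      simp only [Prod.mk.injEq] at h2
      exact ⟨ω', hs ω' h1, h2.2, h2.1, h3⟩)
    rw [Real.logb_rpow (by norm_num) (by norm_num)] at h1
    exact h1
  have e5 : mass (res μ (fun ω => ¬ A ω)) = 1 - mass ν := by linarith [hsplit.1]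
  rw [e5] at b2
  rw [hm] at b1
  linarith

theorem res_res2 {Ω : Type} (μ : Ω → ℝ) (A B C : Ω → Prop) (h : ∀ ω, C ω ↔ A ω ∧ B ω) :
    res (res μ A) B = res μ C := by
  classical
  funext ω
  by_cases hC : C ω
  · obtain ⟨hA, hB⟩ := (h ω).1 hC
    rw [res_pos _ _ _ hB, res_pos _ _ _ hA, res_pos _ _ _ hC]
  · rw [res_neg _ _ _ hC]
    by_cases hB : B ω
    · rw [res_pos _ _ _ hB]
      exact res_neg _ _ _ fun hA => hC ((h ω).2 ⟨hA, hB⟩)
    · exact res_neg _ _ _ hB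

/-- several disjoint events -/
theorem sum_res_le {Ω α γ κ : Type} [Fintype Ω] [Fintype κ] (μ : Ω → ℝ) (hμ : ∀ ω, 0 ≤ μ ω) (f : Ω → α)
    (g : Ω → γ) (st : Ω → κ) : ∑ i, CH (res μ (fun ω => st ω = i)) f g ≤ CH μ f g := by
  classical
  have h : ∀ s : Finset κ, ∑ i ∈ s, CH (res μ (fun ω => st ω = i)) f g +
      CH (res μ (fun ω => st ω ∉ s)) f g ≤ CH μ f g := by
    intro s
    induction s using Finset.induction_on with
    | empty =>
      rw [Finset.sum_empty, zero_add]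
      have e1 : res μ (fun ω => st ω ∉ (∅ : Finset κ)) = μ := by
        funext ω
        exact res_pos _ _ _ (Finset.notMem_empty _)
      rw [e1]
    | insert i s hi ih =>
      rw [Finset.sum_insert hi]
      have h1 := ((st_E4 st_E1 st_E3).2.1 Ω α γ (res μ (fun ω => st ω ∉ s)) f g (fun ω => st ω = i) (res_nn _ _ hμ)).1
      have e1 : res (res μ (fun ω => st ω ∉ s)) (fun ω => st ω = i) = res μ (fun ω => st ω = i) := by
        apply res_res2
        intro ω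
        constructor
        · intro h2
          refine ⟨?_, h2⟩
          rw [h2]
          exact hi
        · intro h2
          exact h2.2
      have e2 : res (res μ (fun ω => st ω ∉ s)) (fun ω => ¬ st ω = i) = res μ (fun ω => st ω ∉ insert i s) := by
        apply res_res2
        intro ω
        rw [Finset.mem_insert]
        push Not
        exact and_comm
      rw [e1, e2] at h1
      linarith
  have h1 := h Finset.univ
  have h2 := (st_E1 Ω α α γ (res μ (fun ω => st ω ∉ (Finset.univ : Finset κ))) f f g (res_nn _ _ hμ)).1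
  linarith

end

end Pool.Agent.Helper14.MT1
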