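import Pool.Agent.Helper14.MT1.Frm1
import Pool.Agent.Helper14.MT1.Fin
import Pool.Agent.Helper14.MC.Cntv

/-! ST 1: lower bound of the entropy of the point over a label `kappa_0` by the slopes of the types; `ST 1` for systems
whose types have slopes. -/

set_option autoImplicit false

namespace Pool.Agent.Helper14.MT1

open Finset Filter Topology Matrix Pool.Agent.Helper69.RK Pool.Agent.Helper31.EC Pool.Agent.Helper31.EC.Sp
open Pool.Agent.Helper40.EL Pool.Agent.Helper89.LX Pool.Agent.Helper3.LF Pool.Agent.Helper84.MT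
open Pool.Agent.Helper14.MC MvPolynomial
open Pool.Agent.Helper95.LF (PdM)
open Pool.Agent.Helper59.LF (fadd fadd_leak h_label)
open Pool.Agent.Helper59.EN (mass_nn res_nn)

noncomputable section

variable {S : Sp} {E : ℕ → ℕ} {ι : Type}

/-- SLOPES of a type of leaves of a point of the line: the exponent `th` of the size of the gradient of the chart at the
point -/
structure Slp {Q : S.VV 1} (l : Leaf S Q E) where
  th : ∀ k, (S.F k).Ω → ℝ
  dr : ∀ k, (S.F k).Ω → ℕ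
  G : ∀ k, (S.F k).Ω → Prop
  K : ℕ → ℝ
  tG : Typ G
  sK : S.Sub K
  rg : ∀ᶠ k in UF, ∀ ω, (S.F k).μ ω ≠ 0 → 0 ≤ th k ω ∧ th k ω ≤ 1 ∧ dr k ω ≤ l.e
  s1 : ∀ᶠ k in UF, ∀ ω ω', (S.F k).μ ω ≠ 0 → (S.F k).μ ω' ≠ 0 → G k ω → G k ω' → (S.F k).Z ω ω' →
    (l.La k ⊓ Setoid.ker (l.Y.cellv 0 k)) ω ω' → |Q.v k ω 0 - Q.v k ω' 0| ≤ K k * S.dl (th k ω) k
  s2 : ∀ᶠ k in UF, ∀ ω, (S.F k).μ ω ≠ 0 → G k ω → ∀ T : Finset (Fin l.e → ℤ),
    (∀ a ∈ T, ∃ ω', (S.F k).μ ω' ≠ 0 ∧ G k ω' ∧ dr k ω' = dr k ω ∧ Q.cellv 1 k ω' = Q.cellv 1 k ω ∧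
      (S.F k).Z ω' ω ∧ (l.La k ⊓ Setoid.ker (l.Y.cellv 0 k)) ω' ω ∧ l.Y.cellv 1 k ω' = a) →
    (T.card : ℝ) ≤ K k * 2 ^ ((l.e - 1 + th k ω) * (S.F k).n)

/-- entropies over a label: lower bound -/
theorem e_lab_ge {F : FSp} (l : FLab F) (W A : Setoid F.Ω) : F.e W (A ⊓ F.Z) - l.leak (fc A) ≤
    l.T.e (Setoid.comap l.p.π W) ((l.V ⊓ Setoid.comap l.p.π A) ⊓ l.T.Z) := by
  rw [← h_label, ← l.p.map_fc]
  have h3 : I l.v (l.p.map (fc W)) (l.p.map (fc A)) =
      Pool.Agent.Helper31.EC.h (l.p.map (fc W)) (l.p.map (fc A)) -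
      Pool.Agent.Helper31.EC.h (l.p.map (fc W)) (l.v ⊔ l.p.map (fc A)) := by
    rw [I_comm, I_eq]
  have h4 : I l.v (l.p.map (fc W)) (l.p.map (fc A)) ≤ l.leak (fc A) :=
    I_mono_right ((l.p.map_le_top _).trans le_sup_left)
  rw [l.p.h_map, h_fc] at h3
  linarith

/-- the entropy of the point over the label -/
theorem le_H_up1 {M : ℕ} (l : Lab S) (Q : S.VV M) (a : ℕ → ℝ) (ha : UB a)
    (hh : ∀ ε : ℝ, 0 < ε → ∀ᶠ k in UF, a k - ε ≤
      Pool.Agent.Helper31.EC.h ((l k).p.map (pcd Q k)) (l k).v / (S.F k).n) : ul a ≤ H (up1 l (Q.dg 1)) := by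
  rw [Lab.H_upL, div_one]
  have hU : UB (fun k => Pool.Agent.Helper31.EC.h ((l k).p.map (rp (Q.dg 1) k)) (l k).v / (S.F k).n) := by
    refine UB.sandwich (UB_const 0) ((rp_Bd (Q.dg 1)).ub (fun _ => ⊥)) ?_ ?_
    · exact Eventually.of_forall fun k => div_nonneg (h_nonneg _ _) (S.F k).pos.le
    · refine Eventually.of_forall fun k => div_le_div_of_nonneg_right ?_ (S.F k).pos.le
      rw [h_bot, ← (l k).p.H_map]
      exact h_le_H _ _
  apply le_of_forall_pos_le_add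
  intro ε hε
  have h1 := (pcd_rp Q).2
  have h2 : ∀ᶠ k in UF, a k ≤ Pool.Agent.Helper31.EC.h ((l k).p.map (rp (Q.dg 1) k)) (l k).v / (S.F k).n + ε := by
    filter_upwards [hh (ε / 2) (by linarith), h1.eventually (gt_mem_nhds (show (0 : ℝ) < ε / 2 by linarith))]
      with k a1 a2
    have hn := (S.F k).pos
    have a3 : Pool.Agent.Helper31.EC.h ((l k).p.map (pcd Q k)) (l k).v ≤
        Pool.Agent.Helper31.EC.h ((l k).p.map (rp (Q.dg 1) k)) (l k).v +
        Pool.Agent.Helper31.EC.h (pcd Q k) (rp (Q.dg 1) k) := by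
      have b1 : Pool.Agent.Helper31.EC.h ((l k).p.map (pcd Q k)) (l k).v ≤
          Pool.Agent.Helper31.EC.h ((l k).p.map (rp (Q.dg 1) k) ⊔ (l k).p.map (pcd Q k)) (l k).v :=
        h_mono le_sup_right
      rw [h_chain] at b1
      have b2 : Pool.Agent.Helper31.EC.h ((l k).p.map (pcd Q k)) ((l k).p.map (rp (Q.dg 1) k) ⊔ (l k).v) ≤
          Pool.Agent.Helper31.EC.h (pcd Q k) (rp (Q.dg 1) k) := by
        rw [← (l k).p.h_map]
        exact h_anti le_sup_left
      linarith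
    have a4 := div_le_div_of_nonneg_right a3 hn.le
    rw [add_div] at a4
    linarith
  have h3 := ul_mono ha (hU.add (UB_const ε)) h2
  rw [ul_add hU (UB_const ε), ul_const] at h3
  exact h3

/-- the least slope -/
def thm [Fintype ι] {s : MSys S 1 E ι} (sl : ∀ i, Slp (s.lf i)) (k : ℕ) (ω : (S.F k).Ω) : ℝ :=
  (Finset.univ : Finset (Option ι)).inf' ⟨none, Finset.mem_univ _⟩
    (fun i => match i with | none => 1 | some i => (sl i).th k ω)

section
variable [Fintype ι] {s : MSys S 1 E ι} (sl : ∀ i, Slp (s.lf i))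

theorem thm_le_one (k : ℕ) (ω : (S.F k).Ω) : thm sl k ω ≤ 1 :=
  Finset.inf'_le (fun i : Option ι => match i with | none => (1 : ℝ) | some i => (sl i).th k ω) (Finset.mem_univ none)

theorem thm_le (k : ℕ) (ω : (S.F k).Ω) (i : ι) : thm sl k ω ≤ (sl i).th k ω :=
  Finset.inf'_le (fun i : Option ι => match i with | none => (1 : ℝ) | some i => (sl i).th k ω)
    (Finset.mem_univ (some i))

theorem exists_st (k : ℕ) (ω : (S.F k).Ω) : ∃ o : Option ι, (o = none → thm sl k ω = 1) ∧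
    ∀ i, o = some i → thm sl k ω = (sl i).th k ω := by
  obtain ⟨o, -, ho⟩ := Finset.exists_mem_eq_inf' (s := (Finset.univ : Finset (Option ι))) ⟨none, Finset.mem_univ _⟩
    (fun i => match i with | none => (1 : ℝ) | some i => (sl i).th k ω)
  refine ⟨o, ?_, ?_⟩
  · intro h
    subst h
    exact ho
  · intro i h
    subst h
    exact ho

/-- the type of least slope -/
def stm (k : ℕ) (ω : (S.F k).Ω) : Option ι := (exists_st sl k ω).choose

theorem stm_none (k : ℕ) (ω : (S.F k).Ω) (h : stm sl k ω = none) : thm sl k ω = 1 :=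
  (exists_st sl k ω).choose_spec.1 h

theorem stm_some (k : ℕ) (ω : (S.F k).Ω) (i : ι) (h : stm sl k ω = some i) : thm sl k ω = (sl i).th k ω :=
  (exists_st sl k ω).choose_spec.2 i h

theorem thm_nonneg : ∀ᶠ k in UF, ∀ ω, (S.F k).μ ω ≠ 0 → 0 ≤ thm sl k ω ∧ thm sl k ω ≤ 1 := by
  have h1 : ∀ᶠ k in UF, ∀ i : ι, ∀ ω, (S.F k).μ ω ≠ 0 → 0 ≤ (sl i).th k ω := by
    rw [Filter.eventually_all]
    intro i
    filter_upwards [(sl i).rg] with k hk ω hω
    exact (hk ω hω).1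
  filter_upwards [h1] with k hk ω hω
  refine ⟨?_, thm_le_one sl k ω⟩
  apply Finset.le_inf'
  intro o _
  rcases o with _ | i
  · exact zero_le_one
  · exact hk i ω hω

/-- the label of variable level is a function of all conditions -/
theorem VJ_cnd {J : ℕ} (hJ : 0 < J) (i : Option ι) :
    PLe (fun k => fc (VJ s.Q (thm sl) J k)) (s.cnd 0 i) := by
  rcases i with _ | i
  · apply VJ_near s.Q hJ (thm_nonneg sl) (fun k => Setoid.ker (s.Q.cellv 1 k)) (fun _ _ => True) ?_ (fun _ => 1)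
      (S.Sub_const zero_le_one)
    · refine Eventually.of_forall fun k ω ω' _ _ _ _ _ h => ?_
      rw [one_mul]
      exact (abs_sub_le_of_floor_eq (S.dl_pos 1 k) (congrFun h 0)).trans (S.dl_anti (thm_le_one sl k ω) k)
    · unfold Typ
      have e1 : (fun k => mass (res (S.F k).μ (fun _ => ¬ True))) = fun _ => (0 : ℝ) := by
        funext k
        unfold mass
        apply Finset.sum_eq_zero
        intro ω _
        exact res_neg _ _ _ (not_not.2 trivial)
      rw [e1]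
      exact tendsto_const_nhds
  · apply VJ_near s.Q hJ (thm_nonneg sl) (fun k => (s.lf i).La k ⊓ Setoid.ker ((s.lf i).Y.cellv 0 k)) (sl i).G (sl i).tG
      (sl i).K (sl i).sK
    filter_upwards [(sl i).s1, (sl i).sK.1] with k hk hK0 ω ω' h1 h2 h3 h4 h5 h6
    exact (hk ω ω' h1 h2 h3 h4 h5 h6).trans (mul_le_mul_of_nonneg_left (S.dl_anti (thm_le sl k ω i) k) hK0)

end

end

end Pool.Agent.Helper14.MT1
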