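import Pool.Agent.Helper14.MT1.Slo

/-! ST 1: every type of leaves of a point of the line has slopes (from the theorem on typical derivatives). -/

set_option autoImplicit false

namespace Pool.Agent.Helper14.MT1

open Finset Filter Topology Matrix Pool.Agent.Helper69.RK Pool.Agent.Helper31.EC Pool.Agent.Helper31.EC.Sp
open Pool.Agent.Helper40.EL Pool.Agent.Helper84.MT

noncomputable section

/-- the value at the parameter of a function with the Remez property is typically its size on the cube -/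
def TypD : Prop := ∀ (S : Sp) (M : ℕ) (E : ℕ → ℕ) (Q : S.VV M) (l : Leaf S Q E)
  (f : ∀ k, (S.F k).Ω → (Fin l.e → ℝ) → ℝ) (N : ℕ) (K : ℕ → ℝ), S.Sub K →
  (∀ᶠ k in UF, ∀ ω ω', (S.F k).μ ω ≠ 0 → (S.F k).μ ω' ≠ 0 → (S.F k).Z ω ω' → l.La k ω ω' → f k ω = f k ω') →
  (∀ᶠ k in UF, ∀ ω, (S.F k).μ ω ≠ 0 → AxP (N + 1) (K k) (l.Y.v k ω) (f k ω)) →
  ∃ (K' : ℕ → ℝ) (G : ∀ k, (S.F k).Ω → Prop), S.Sub K' ∧ Typ G ∧ ∀ᶠ k in UF, ∀ ω, (S.F k).μ ω ≠ 0 → G k ω →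
    ∀ y : Fin l.e → ℝ, (∀ i, |y i - l.Y.v k ω i| < 1) → |f k ω y| ≤ K' k * |f k ω (l.Y.v k ω)|

variable {S : Sp} {E : ℕ → ℕ} {M : ℕ}

theorem Typ_fin {α : Type} [Fintype α] (G : α → ∀ k, (S.F k).Ω → Prop) (h : ∀ a, Typ (G a)) :
    Typ (fun k ω => ∀ a, G a k ω) := by
  classical
  have key : ∀ s : Finset α, Typ (fun k ω => ∀ a ∈ s, G a k ω) := by
    intro s
    induction s using Finset.induction_on with
    | empty =>
      apply Typ_true.mono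
      exact Eventually.of_forall fun k ω _ _ a ha => absurd ha (Finset.notMem_empty a)
    | insert a s _ ih =>
      apply ((h a).and ih).mono
      refine Eventually.of_forall fun k ω _ h1 b hb => ?_
      rcases Finset.mem_insert.1 hb with h2 | h2
      · rw [h2]; exact h1.1
      · exact h1.2 b h2
  apply (key Finset.univ).mono
  exact Eventually.of_forall fun k ω _ h1 a => h1 a (Finset.mem_univ a)

/-- everything about the derivatives of the chart -/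
theorem grd_all (hT : TypD) {Q : S.VV M} (l : Leaf S Q E) (i : Fin M) : ∃ (K : ℕ → ℝ) (G : ∀ k, (S.F k).Ω → Prop),
    S.Sub K ∧ Typ G ∧ ∀ᶠ k in UF, 0 ≤ K k ∧ ∀ ω, (S.F k).μ ω ≠ 0 →
      (∀ a, ∀ y : Fin l.e → ℝ, (∀ j, |y j - l.Y.v k ω j| < 1) →
        HasDerivAt (fun t => l.F k ω (Function.update y a t) i) (gr l i k ω a y) (y a)) ∧
      (∀ a, AxP (E 2 + 1) (K k) (l.Y.v k ω) (gr l i k ω a)) ∧
      (G k ω → ∀ a, ∀ y : Fin l.e → ℝ, (∀ j, |y j - l.Y.v k ω j| < 1) →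
        |gr l i k ω a y| ≤ K k * |gr l i k ω a (l.Y.v k ω)|) ∧
      (∀ a, |gr l i k ω a (l.Y.v k ω)| ≤ K k) ∧
      (∀ y z : Fin l.e → ℝ, (∀ j, |y j - l.Y.v k ω j| ≤ 1) → (∀ j, |z j - l.Y.v k ω j| ≤ 1) →
        |l.F k ω y i - l.F k ω z i| ≤ K k * ∑ j, |y j - z j|) ∧
      |Q.v k ω i - l.F k ω (l.Y.v k ω) i| ≤ K k * S.dl 1 k := by
  classical
  obtain ⟨K1, hK1, h1⟩ := gr_AxP l i
  obtain ⟨K3, hK3, h3⟩ := gr_bd l i
  obtain ⟨K4, hK4, h4⟩ := l.lip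
  obtain ⟨K5, hK5, h5⟩ := l.pt
  have hfn : ∀ a : Fin l.e, ∀ᶠ k in UF, ∀ ω ω', (S.F k).μ ω ≠ 0 → (S.F k).μ ω' ≠ 0 → (S.F k).Z ω ω' →
      l.La k ω ω' → gr l i k ω a = gr l i k ω' a := by
    intro a
    filter_upwards [l.fn] with k hk ω ω' b1 b2 b3 b4
    unfold gr
    rw [hk ω ω' b1 b2 b3 b4]
  have h2 : ∀ a : Fin l.e, ∃ (K' : ℕ → ℝ) (G : ∀ k, (S.F k).Ω → Prop), S.Sub K' ∧ Typ G ∧ ∀ᶠ k in UF, ∀ ω,
      (S.F k).μ ω ≠ 0 → G k ω → ∀ y : Fin l.e → ℝ, (∀ i, |y i - l.Y.v k ω i| < 1) →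
        |gr l i k ω a y| ≤ K' k * |gr l i k ω a (l.Y.v k ω)| := by
    intro a
    apply hT S M E Q l (fun k ω => gr l i k ω a) (E 2) K1 hK1 (hfn a)
    filter_upwards [h1] with k hk ω hω
    exact hk ω hω a
  choose K2 G hK2 hG h2 using h2
  have hK2s : S.Sub (fun k => ∑ a, K2 a k) := by
    have key : ∀ s : Finset (Fin l.e), S.Sub (fun k => ∑ a ∈ s, K2 a k) := by
      intro s
      induction s using Finset.induction_on with
      | empty =>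
        simp only [Finset.sum_empty]
        exact S.Sub_const le_rfl
      | insert a s ha ih =>
        simp only [Finset.sum_insert ha]
        exact (hK2 a).add ih
    exact key Finset.univ
  refine ⟨fun k => K1 k + (∑ a, K2 a k) + K3 k + K4 k + K5 k, fun k ω => ∀ a, G a k ω,
    (((hK1.add hK2s).add hK3).add hK4).add hK5, Typ_fin G hG, ?_⟩
  have h2' : ∀ᶠ k in UF, ∀ a, ∀ ω, (S.F k).μ ω ≠ 0 → G a k ω → ∀ y : Fin l.e → ℝ,
      (∀ i, |y i - l.Y.v k ω i| < 1) → |gr l i k ω a y| ≤ K2 a k * |gr l i k ω a (l.Y.v k ω)| := by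
    rw [Filter.eventually_all]
    exact h2
  have hK2n : ∀ᶠ k in UF, ∀ a, 0 ≤ K2 a k := by
    rw [Filter.eventually_all]
    exact fun a => (hK2 a).1
  filter_upwards [gr_hasDerivAt l i, h1, h2', h3, h4, h5, hK1.1, hK2n, hK3.1, hK4.1, hK5.1] with k a0 a1 a2 a3 a4 a5
    b1 b2 b3 b4 b5
  have b2' : 0 ≤ ∑ a, K2 a k := Finset.sum_nonneg fun a _ => b2 a
  refine ⟨by linarith, fun ω hω => ⟨a0 ω hω, ?_, ?_, ?_, ?_, ?_⟩⟩
  · intro a y hy j al be hal hbe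
    obtain ⟨c1, c2⟩ := a1 ω hω a y hy j al be hal hbe
    exact ⟨c1.mono le_rfl b1 (by linarith), c2.mono (by linarith)⟩
  · intro hG a y hy
    refine (a2 a ω hω (hG a) y hy).trans (mul_le_mul_of_nonneg_right ?_ (abs_nonneg _))
    have := Finset.single_le_sum (f := fun a => K2 a k) (fun a _ => b2 a) (Finset.mem_univ a)
    linarith
  · intro a
    exact (a3 ω hω a).trans (by linarith)
  · intro y z hy hz
    refine (a4 ω hω y z hy hz i).trans (mul_le_mul_of_nonneg_right (by linarith) ?_)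
    exact Finset.sum_nonneg fun j _ => abs_nonneg _
  · refine (a5 ω hω i).trans (mul_le_mul_of_nonneg_right (by linarith) (S.dl_pos 1 k).le)

/-- the size of the gradient -/
def Gr {Q : S.VV 1} (l : Leaf S Q E) (k : ℕ) (ω : (S.F k).Ω) : ℝ := ∑ a, |gr l 0 k ω a (l.Y.v k ω)|

theorem Gr_nonneg {Q : S.VV 1} (l : Leaf S Q E) (k : ℕ) (ω : (S.F k).Ω) : 0 ≤ Gr l k ω :=
  Finset.sum_nonneg fun _ _ => abs_nonneg _

theorem dl_eq (S : Sp) (r : ℝ) (k : ℕ) : S.dl r k = 2 ^ (-r * (S.F k).n) := by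
  unfold Sp.dl
  rw [neg_mul]

theorem open_of_cell0 {e : ℕ} (Y : S.VV e) (k : ℕ) (ω ω' : (S.F k).Ω) (h : Setoid.ker (Y.cellv 0 k) ω ω') :
    ∀ j, |Y.v k ω j - Y.v k ω' j| < 1 := by
  intro j
  have h1 : ⌊Y.v k ω j / S.dl 0 k⌋ = ⌊Y.v k ω' j / S.dl 0 k⌋ := congrFun h j
  rw [S.dl_zero, div_one, div_one] at h1
  exact Int.abs_sub_lt_one_of_floor_eq_floor h1

/-- the data of a chart at one index -/
def Dat {Q : S.VV 1} (l : Leaf S Q E) (k : ℕ) (K : ℝ) (G : (S.F k).Ω → Prop) : Prop := ∀ ω, (S.F k).μ ω ≠ 0 →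
  (∀ a, ∀ y : Fin l.e → ℝ, (∀ j, |y j - l.Y.v k ω j| < 1) →
    HasDerivAt (fun t => l.F k ω (Function.update y a t) 0) (gr l 0 k ω a y) (y a)) ∧
  (∀ a, AxP (E 2 + 1) K (l.Y.v k ω) (gr l 0 k ω a)) ∧
  (G ω → ∀ a, ∀ y : Fin l.e → ℝ, (∀ j, |y j - l.Y.v k ω j| < 1) →
    |gr l 0 k ω a y| ≤ K * |gr l 0 k ω a (l.Y.v k ω)|) ∧
  (∀ a, |gr l 0 k ω a (l.Y.v k ω)| ≤ K) ∧
  (∀ y z : Fin l.e → ℝ, (∀ j, |y j - l.Y.v k ω j| ≤ 1) → (∀ j, |z j - l.Y.v k ω j| ≤ 1) →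
    |l.F k ω y 0 - l.F k ω z 0| ≤ K * ∑ j, |y j - z j|) ∧
  |Q.v k ω 0 - l.F k ω (l.Y.v k ω) 0| ≤ K * S.dl 1 k

theorem dl_thx {Q : S.VV 1} (l : Leaf S Q E) (k : ℕ) (ω : (S.F k).Ω) :
    S.dl 1 k ≤ S.dl (thx (S.F k).n (Gr l k ω)) k := S.dl_anti (thx_le_one _ _) k

/-- (S1) -/
theorem s1_aux {Q : S.VV 1} (l : Leaf S Q E) (k : ℕ) (K : ℝ) (hK : 0 ≤ K) (G : (S.F k).Ω → Prop)
    (hfn : ∀ ω ω', (S.F k).μ ω ≠ 0 → (S.F k).μ ω' ≠ 0 → (S.F k).Z ω ω' → l.La k ω ω' → l.F k ω = l.F k ω')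
    (hd : Dat l k K G) (ω ω' : (S.F k).Ω) (h1 : (S.F k).μ ω ≠ 0) (h2 : (S.F k).μ ω' ≠ 0) (h3 : G ω)
    (h4 : (S.F k).Z ω ω') (h5 : (l.La k ⊓ Setoid.ker (l.Y.cellv 0 k)) ω ω') :
    |Q.v k ω 0 - Q.v k ω' 0| ≤ (2 * K + K * (l.e * K + 1)) * S.dl (thx (S.F k).n (Gr l k ω)) k := by
  have hn := (S.F k).pos
  obtain ⟨a1, a2, a3, a4, a5, a6⟩ := hd ω h1
  obtain ⟨b1, b2, b3, b4, b5, b6⟩ := hd ω' h2
  have hF := hfn ω ω' h1 h2 h4 h5.1
  have hY : ∀ j, |l.Y.v k ω' j - l.Y.v k ω j| < 1 := open_of_cell0 l.Y k ω' ω (Setoid.symm' _ h5.2)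
  have h6 := path_le (fun y => l.F k ω y 0) (fun a y => gr l 0 k ω a y) (l.Y.v k ω) a1
    (fun a => K * |gr l 0 k ω a (l.Y.v k ω)|) (a3 h3) (l.Y.v k ω') hY
  rw [← Finset.mul_sum] at h6
  have h7 : Gr l k ω ≤ l.e * K := by
    unfold Gr
    refine (Finset.sum_le_sum fun a _ => a4 a).trans (le_of_eq ?_)
    rw [Finset.sum_const, Finset.card_univ, Fintype.card_fin, nsmul_eq_mul]
  have h8 := thx_up hn (Gr_nonneg l k ω) h7
  rw [← dl_eq] at h8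
  rw [← hF] at b6
  have h9 := dl_thx l k ω
  have h10 : K * S.dl 1 k ≤ K * S.dl (thx (S.F k).n (Gr l k ω)) k := mul_le_mul_of_nonneg_left h9 hK
  have h11 : K * Gr l k ω ≤ K * ((l.e * K + 1) * S.dl (thx (S.F k).n (Gr l k ω)) k) :=
    mul_le_mul_of_nonneg_left h8 hK
  have e1 : Q.v k ω 0 - Q.v k ω' 0 = (Q.v k ω 0 - l.F k ω (l.Y.v k ω) 0) -
      (l.F k ω (l.Y.v k ω') 0 - l.F k ω (l.Y.v k ω) 0) - (Q.v k ω' 0 - l.F k ω (l.Y.v k ω') 0) := by ring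
  rw [e1]
  have h12 := abs_sub ((Q.v k ω 0 - l.F k ω (l.Y.v k ω) 0) -
      (l.F k ω (l.Y.v k ω') 0 - l.F k ω (l.Y.v k ω) 0)) (Q.v k ω' 0 - l.F k ω (l.Y.v k ω') 0)
  have h13 := abs_sub (Q.v k ω 0 - l.F k ω (l.Y.v k ω) 0) (l.F k ω (l.Y.v k ω') 0 - l.F k ω (l.Y.v k ω) 0)
  have h14 : K * ∑ a, |gr l 0 k ω a (l.Y.v k ω)| = K * Gr l k ω := rfl
  rw [h14] at h6
  have h15 : |l.F k ω (l.Y.v k ω') 0 - l.F k ω (l.Y.v k ω) 0| ≤ K * Gr l k ω := h6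
  linarith

/-- two points of one fibre -/
theorem sep_aux {Q : S.VV 1} (l : Leaf S Q E) (k : ℕ) (K : ℝ) (hK : 0 ≤ K) (G : (S.F k).Ω → Prop)
    (hfn : ∀ ω ω', (S.F k).μ ω ≠ 0 → (S.F k).μ ω' ≠ 0 → (S.F k).Z ω ω' → l.La k ω ω' → l.F k ω = l.F k ω')
    (hd : Dat l k K G) (hρ : S.dl 1 k ≤ 1 / (4 * (K ^ 2 + 1))) (ω ω' : (S.F k).Ω) (h1 : (S.F k).μ ω ≠ 0)
    (h2 : (S.F k).μ ω' ≠ 0) (h3 : G ω) (h4 : (S.F k).Z ω ω') (h5 : l.La k ω ω')
    (hQ : Q.cellv 1 k ω = Q.cellv 1 k ω') (a : Fin l.e) (hc : ∀ i, i ≠ a → l.Y.cellv 1 k ω i = l.Y.cellv 1 k ω' i)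
    (hR : |l.Y.v k ω' a - l.Y.v k ω a| ≤ 2 * (1 / (4 * (K ^ 2 + 1)))) :
    |gr l 0 k ω a (l.Y.v k ω)| * |l.Y.v k ω' a - l.Y.v k ω a| ≤ 2 * (2 * K + 1 + K * l.e) * S.dl 1 k := by
  have hδ := S.dl_pos 1 k
  obtain ⟨a1, a2, a3, a4, a5, a6⟩ := hd ω h1
  obtain ⟨b1, b2, b3, b4, b5, b6⟩ := hd ω' h2
  have hF := hfn ω ω' h1 h2 h4 h5
  set Y := l.Y.v k ω with hY
  set Y' := l.Y.v k ω' with hY'
  set ρ : ℝ := 1 / (4 * (K ^ 2 + 1)) with hρd
  have hρ0 : 0 < ρ := by positivity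
  have hρ1 : ρ ≤ 1 / 4 := by
    rw [hρd, div_le_div_iff₀ (by positivity) (by norm_num)]
    nlinarith [sq_nonneg K]
  have hKρ : K * (2 * ρ) * K ≤ 1 / 2 := by
    have e1 : ρ * (4 * (K ^ 2 + 1)) = 1 := by rw [hρd]; field_simp
    nlinarith [sq_nonneg K]
  have h0 : ∀ j, |Y j - Y j| < 1 := fun j => by rw [sub_self, abs_zero]; exact one_pos
  have hnear : ∀ t, |t - Y a| ≤ 2 * ρ → |t - Y a| < 1 := fun t ht => by linarith
  -- lower bound along the axis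
  have hlow := low_le (fun t => l.F k ω (Function.update Y a t) 0) (fun t => gr l 0 k ω a (Function.update Y a t))
    (Y a) (2 * ρ) (by positivity) (fun t ht => hasDerivAt_upd (F := fun y => l.F k ω y 0) (g := gr l 0 k ω a)
      (a1 a) h0 (hnear t ht)) (by
      intro t ht
      simp only [Function.update_eq_self]
      obtain ⟨-, hbm⟩ := a2 a Y h0 a (Y a - 1 / 2) (Y a + 1 / 2) (by
        rw [abs_lt]; constructor <;> linarith) (by rw [abs_lt]; constructor <;> linarith)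
      have e1 : Y a + 1 / 2 - (Y a - 1 / 2) = 1 := by ring
      rw [e1] at hbm
      have h6 := hbm (K * |gr l 0 k ω a Y|) (by
        intro u hu
        apply a3 h3 a
        apply upd_lt h0
        rw [abs_lt]
        constructor <;> linarith [hu.1, hu.2]) (t - Y a + 1 / 2) (by
          rw [abs_le] at ht
          constructor <;> linarith [ht.1, ht.2]) (1 / 2) (by constructor <;> norm_num)
      have e2 : Y a - 1 / 2 + (t - Y a + 1 / 2) * 1 = t := by ring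
      have e3 : Y a - 1 / 2 + 1 / 2 * 1 = Y a := by ring
      have e4 : t - Y a + 1 / 2 - 1 / 2 = t - Y a := by ring
      simp only [e2, e3, e4, Function.update_eq_self] at h6
      refine h6.trans ?_
      have h7 : K * |t - Y a| * (K * |gr l 0 k ω a Y|) ≤ K * (2 * ρ) * (K * |gr l 0 k ω a Y|) :=
        mul_le_mul_of_nonneg_right (mul_le_mul_of_nonneg_left ht hK) (by positivity)
      have h8 : K * (2 * ρ) * K * |gr l 0 k ω a Y| ≤ 1 / 2 * |gr l 0 k ω a Y| :=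
        mul_le_mul_of_nonneg_right hKρ (abs_nonneg _)
      nlinarith) (Y' a) hR
  simp only [Function.update_eq_self] at hlow
  -- upper bound
  have hclose : ∀ i, i ≠ a → |Y' i - Y i| ≤ S.dl 1 k := fun i hi => by
    rw [abs_sub_comm]
    exact abs_sub_le_of_floor_eq hδ (hc i hi)
  have hd1 : S.dl 1 k ≤ 1 / 4 := hρ.trans hρ1
  have hY'c : ∀ j, |Y' j - Y j| ≤ 1 := by
    intro j
    by_cases hj : j = a
    · rw [hj]; linarith
    · linarith [hclose j hj]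
  have hupdc : ∀ j, |Function.update Y a (Y' a) j - Y j| ≤ 1 := by
    intro j
    by_cases hj : j = a
    · rw [hj, Function.update_self]; linarith
    · rw [Function.update_of_ne hj, sub_self, abs_zero]; exact zero_le_one
  have h9 := a5 Y' (Function.update Y a (Y' a)) hY'c hupdc
  have h10 : ∑ j, |Y' j - Function.update Y a (Y' a) j| ≤ l.e * S.dl 1 k := by
    have h11 : ∀ j, |Y' j - Function.update Y a (Y' a) j| ≤ S.dl 1 k := by
      intro j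
      by_cases hj : j = a
      · rw [hj, Function.update_self, sub_self, abs_zero]; exact hδ.le
      · rw [Function.update_of_ne hj]; exact hclose j hj
    refine (Finset.sum_le_sum fun j _ => h11 j).trans (le_of_eq ?_)
    rw [Finset.sum_const, Finset.card_univ, Fintype.card_fin, nsmul_eq_mul]
  have h12 := h9.trans (mul_le_mul_of_nonneg_left h10 hK)
  rw [← hF] at b6
  have h13 : |Q.v k ω 0 - Q.v k ω' 0| ≤ S.dl 1 k := abs_sub_le_of_floor_eq hδ (congrFun hQ 0)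
  have h14 : |l.F k ω (Function.update Y a (Y' a)) 0 - l.F k ω Y 0| ≤ (2 * K + 1 + K * l.e) * S.dl 1 k := by
    rw [abs_le] at h12 h13 a6 b6 ⊢
    constructor <;> linarith [h12.1, h12.2, h13.1, h13.2, a6.1, a6.2, b6.1, b6.2]
  linarith

end

end Pool.Agent.Helper14.MT1
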