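import Pool.Agent.Helper14.MT1.Lab
import Pool.Agent.Helper14.MC.Vopt
import Pool.Agent.Helper84.MT.Leaf0

/-! ST 1: the form of the label which knows the point of the line to a variable level; upper bound of the volume of
the canonical form. -/

set_option autoImplicit false

namespace Pool.Agent.Helper14.MT1

open Finset Filter Topology Matrix Pool.Agent.Helper69.RK Pool.Agent.Helper31.EC Pool.Agent.Helper31.EC.Sp
open Pool.Agent.Helper40.EL Pool.Agent.Helper89.LX Pool.Agent.Helper3.LF Pool.Agent.Helper84.MT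
open Pool.Agent.Helper14.MC MvPolynomial
open Pool.Agent.Helper95.LF (PdM)
open Pool.Agent.Helper59.LF (fadd fadd_leak)

noncomputable section

variable {D : ℕ}

/-- coefficients of `X_0 - a` -/
def lcf (hD : 1 ≤ D) (a : ℝ) : Mon 1 D → ℝ :=
  Pi.single (mvar hD 0) 1 - a • Pi.single (Mon.zero 1 D) 1

theorem lcf_dot (hD : 1 ≤ D) (a : ℝ) (v : Mon 1 D → ℝ) :
    lcf hD a ⬝ᵥ v = v (mvar hD 0) - a * v (Mon.zero 1 D) := by
  unfold lcf
  rw [sub_dotProduct, smul_dotProduct, single_dotProduct, single_dotProduct, one_mul, one_mul, smul_eq_mul]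

/-- the form -/
def fm (hD : 1 ≤ D) (a w : ℝ) : Matrix (Mon 1 D) (Mon 1 D) ℝ := 1 + w • Matrix.vecMulVec (lcf hD a) (lcf hD a)

theorem fm_qf (hD : 1 ≤ D) (a w : ℝ) (x : Mon 1 D → ℝ) :
    x ⬝ᵥ (fm hD a w *ᵥ x) = x ⬝ᵥ x + w * (lcf hD a ⬝ᵥ x) ^ 2 := by
  unfold fm
  rw [Matrix.add_mulVec, Matrix.one_mulVec, dotProduct_add, Matrix.smul_mulVec, dotProduct_smul,
    Matrix.vecMulVec_mulVec, smul_eq_mul]
  congr 2
  rw [show MulOpposite.op (lcf hD a ⬝ᵥ x) • lcf hD a = (lcf hD a ⬝ᵥ x) • lcf hD a from by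
    funext i; simp [mul_comm]]
  rw [dotProduct_smul, smul_eq_mul, dotProduct_comm x, pow_two]

theorem fm_symm (hD : 1 ≤ D) (a w : ℝ) : (fm hD a w).IsSymm := by
  unfold fm
  apply Matrix.isSymm_one.add
  unfold Matrix.IsSymm
  rw [Matrix.transpose_smul, Matrix.transpose_vecMulVec]

theorem fm_ge (hD : 1 ≤ D) (a w : ℝ) (hw : 0 ≤ w) (x : Mon 1 D → ℝ) : x ⬝ᵥ x ≤ x ⬝ᵥ (fm hD a w *ᵥ x) := by
  rw [fm_qf]
  have := mul_nonneg hw (sq_nonneg (lcf hD a ⬝ᵥ x))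
  linarith

theorem coord_sq_le (x : Mon 1 D → ℝ) (m : Mon 1 D) : x m ^ 2 ≤ x ⬝ᵥ x := by
  have h := Finset.single_le_sum (f := fun μ : Mon 1 D => x μ * x μ)
    (fun μ _ => mul_self_nonneg _) (Finset.mem_univ m)
  rw [pow_two]
  exact h

theorem lcf_sq_le (hD : 1 ≤ D) (a : ℝ) (x : Mon 1 D → ℝ) : (lcf hD a ⬝ᵥ x) ^ 2 ≤ (2 * (1 + a ^ 2)) * (x ⬝ᵥ x) := by
  rw [lcf_dot]
  have h1 := coord_sq_le x (mvar hD 0)
  have h2 := coord_sq_le x (Mon.zero 1 D)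
  have h3 : (x (mvar hD 0) - a * x (Mon.zero 1 D)) ^ 2 ≤ 2 * (x (mvar hD 0) ^ 2 + a ^ 2 * x (Mon.zero 1 D) ^ 2) := by
    nlinarith [sq_nonneg (x (mvar hD 0) + a * x (Mon.zero 1 D))]
  have h4 : a ^ 2 * x (Mon.zero 1 D) ^ 2 ≤ a ^ 2 * (x ⬝ᵥ x) := mul_le_mul_of_nonneg_left h2 (sq_nonneg a)
  nlinarith

theorem fm_Cpd (hD : 1 ≤ D) (a w : ℝ) (hw : 0 ≤ w) (c : ℝ) (hc : 1 + w * (2 * (1 + a ^ 2)) ≤ c) :
    Cpd c (fm hD a w) := by
  refine ⟨fm_symm hD a w, fm_ge hD a w hw, fun x => ?_⟩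
  unfold qf
  rw [fm_qf]
  have h1 := mul_le_mul_of_nonneg_left (lcf_sq_le hD a x) hw
  have h2 := dot_self_nonneg x
  have h3 := mul_le_mul_of_nonneg_right hc h2
  nlinarith

theorem fm_phi (hD : 1 ≤ D) (a w : ℝ) (hw : 0 ≤ w) (r d : ℝ) (hr : 0 ≤ r) (hrd : r ≤ d) (p : Fin 1 → ℝ)
    (hp : |p 0 - a| ≤ d) : phi r (fm hD a w) p ≤ phi (D := D) r 1 p + 4 * nn 1 D * (w * d ^ 2) := by
  unfold phi
  have h1 : ∀ j : Fin 1 → Fin (D + 1), vv (D := D) (nodp D p r j) ⬝ᵥ (fm hD a w *ᵥ vv (nodp D p r j)) ≤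
      vv (D := D) (nodp D p r j) ⬝ᵥ ((1 : Matrix (Mon 1 D) (Mon 1 D) ℝ) *ᵥ vv (nodp D p r j)) + 4 * (w * d ^ 2) := by
    intro j
    rw [fm_qf, Matrix.one_mulVec, lcf_dot, vv_mvar, vv_zero, mul_one]
    have h2 : |nodp D p r j 0 - a| ≤ 2 * d := by
      unfold nodp
      have h3 : p 0 + r * nod D (j 0) - a = (p 0 - a) + r * nod D (j 0) := by ring
      rw [h3]
      refine (abs_add_le _ _).trans ?_
      have h4 : |r * nod D (j 0)| ≤ r := by
        rw [abs_mul, abs_of_nonneg hr, abs_of_nonneg (nod_nonneg D _)]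
        exact (mul_le_mul_of_nonneg_left (nod_le D _ (Nat.le_of_lt_succ (j 0).2)) hr).trans (mul_one r).le
      linarith
    have h5 : (nodp D p r j 0 - a) ^ 2 ≤ 4 * d ^ 2 := by
      rw [← sq_abs]
      have := pow_le_pow_left₀ (abs_nonneg _) h2 2
      nlinarith
    have h6 := mul_le_mul_of_nonneg_left h5 hw
    linarith
  refine (Finset.sum_le_sum fun j _ => h1 j).trans (le_of_eq ?_)
  rw [Finset.sum_add_distrib, Finset.sum_const, nsmul_eq_mul, card_nodes]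
  ring

theorem mvar_mon (hD : 1 ≤ D) : (mvar hD (0 : Fin 1)).mon = X 0 := by
  unfold Mon.mon MvPolynomial.X
  have h1 : (mvar hD (0 : Fin 1)).ex = Finsupp.single 0 1 := by
    refine Finsupp.ext fun i => ?_
    rw [Mon.ex_apply, Subsingleton.elim i 0, Finsupp.single_eq_same]
    unfold mvar
    simp
  rw [h1]

theorem zero_mon : (Mon.zero 1 D).mon = 1 := by
  unfold Mon.mon
  have h1 : (Mon.zero 1 D).ex = 0 := by
    refine Finsupp.ext fun i => ?_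
    rw [Mon.ex_apply]
    unfold Mon.zero
    simp
  rw [h1]
  rfl

theorem lcf_dd (hD : 1 ≤ D) (a : ℝ) (q : Fin 1 → ℝ) : lcf hD a ⬝ᵥ dd 0 q = 1 := by
  rw [lcf_dot]
  unfold dd
  rw [mvar_mon, zero_mon, pderiv_X_self, map_one, ← C_1, pderiv_C, map_zero, mul_zero, sub_zero]

theorem fm_GQ (hD : 1 ≤ D) (a w : ℝ) (hw : 0 ≤ w) (r : ℝ) (p : Fin 1 → ℝ) : w ≤ GQ r (fm hD a w) p := by
  unfold GQ
  rw [Matrix.det_fin_one, Matrix.add_apply, Matrix.one_apply_eq, Jq_apply]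
  have h1 : ∀ j : Fin 1 → Fin (D + 1), w ≤ dd (D := D) 0 (nodp D p r j) ⬝ᵥ
      (fm hD a w *ᵥ dd 0 (nodp D p r j)) := by
    intro j
    rw [fm_qf, lcf_dd]
    have := dot_self_nonneg (dd (D := D) (0 : Fin 1) (nodp D p r j))
    linarith
  have h2 := Finset.sum_le_sum (s := Finset.univ) fun (j : Fin 1 → Fin (D + 1)) _ => h1 j
  rw [Finset.sum_const, nsmul_eq_mul, card_nodes] at h2
  have h3 := nn_one 1 D
  nlinarith

variable {S : Sp} {E : ℕ → ℕ} {ι : Type}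

/-- the form of a cell -/
def fmc (S : Sp) (hD : 1 ≤ D) (J k : ℕ) (v : ℕ × ℤ) : Matrix (Mon 1 D) (Mon 1 D) ℝ :=
  fm hD (v.2 * S.dl ((v.1 : ℝ) / J) k) ((S.dl ((v.1 : ℝ) / J) k) ^ 2)⁻¹

/-- the label with the form -/
def yx (hD : 1 ≤ D) (Q : S.VV 1) (θ : ∀ k, (S.F k).Ω → ℝ) (J : ℕ) (l : Lab S) (k : ℕ) :
    FD (S.F k) (Mon 1 D) where
  l := fadd (l k) (Setoid.comap (l k).p.π (VJ Q θ J k))
  g := fun ω => fmc S hD J k (jx θ J k ((l k).p.π ω), cx Q θ J k ((l k).p.π ω))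
  g' := fun ω => fmc S hD J k (jx θ J k ((l k).p.π ω), cx Q θ J k ((l k).p.π ω))
  meas := by
    intro ω ω' _ _ h3 _
    have h4 : (jx θ J k ((l k).p.π ω), cx Q θ J k ((l k).p.π ω)) =
        (jx θ J k ((l k).p.π ω'), cx Q θ J k ((l k).p.π ω')) := h3.2
    rw [h4]
    exact ⟨rfl, rfl⟩

/-- the form is admissible -/
theorem yx_Adf [Finite ι] (s : MSys S 1 E ι) (hD : 1 ≤ D) {c : ℝ} (θ : ∀ k, (S.F k).Ω → ℝ) {J : ℕ} (hJ : 0 < J)
    (hθ : ∀ᶠ k in UF, ∀ ω, (S.F k).μ ω ≠ 0 → 0 ≤ θ k ω ∧ θ k ω ≤ 1)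
    (hV : ∀ i, PLe (fun k => fc (VJ s.Q θ J k)) (s.cnd c i)) {l : Lab S} (hl : s.DMc c l) :
    (gaq s.Q D).Adf (s.cnd c) (yx hD s.Q θ J l) := by
  intro η hη
  obtain ⟨K1, hK1, hone⟩ := (gaq s.Q D).one
  obtain ⟨C, hC, hb⟩ := s.Q.bd
  -- leaks
  have hleak : ∀ i, Nul S (fun k => (yx hD s.Q θ J l k).l.leak (s.cnd c i k)) := by
    intro i
    have h1 : Nul S (fun k => Pool.Agent.Helper31.EC.h ((l k).p.map (fc (VJ s.Q θ J k)))
        ((l k).v ⊔ (l k).p.map (s.cnd c i k))) := by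
      apply Nul.of_le (hV i) (Eventually.of_forall fun _ => h_nonneg _ _)
      refine Eventually.of_forall fun k => ?_
      rw [← (l k).p.h_map]
      exact h_anti le_sup_right
    apply ((hl i).add h1).of_le (Eventually.of_forall fun k => FLab.leak_nonneg _ _)
    exact Eventually.of_forall fun k => fadd_leak (l k) _ _
  have hleak' : ∀ᶠ k in UF, ∀ i, (yx hD s.Q θ J l k).l.leak (s.cnd c i k) ≤ η * (S.F k).n := by
    rw [Filter.eventually_all]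
    intro i
    filter_upwards [(hleak i).eventually (gt_mem_nhds hη)] with k hk
    rw [div_lt_iff₀ (S.F k).pos] at hk
    exact hk.le
  have hcap : S.Sub (fun k => 1 + 2 * (1 + (C k + 1) ^ 2)) :=
    (S.Sub_const zero_le_one).add ((S.Sub_const (by norm_num)).mul ((S.Sub_const zero_le_one).add
      (Sub_pow' (hC.add (S.Sub_const zero_le_one)) 2)))
  have hphi : S.Sub (fun k => K1 k + 4 * nn 1 D) := hK1.add (S.Sub_const (by
    have := nn_one 1 D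
    linarith))
  filter_upwards [hleak', hone, hb, hθ, hcap.eventually_le (show (0 : ℝ) < 2 by norm_num),
    hphi.eventually_le hη, hC.1] with k h1 h2 h3 h4 h5 h6 hC0
  have hn := (S.F k).pos
  have hd1 : S.dl 1 k ≤ 1 := dl_one_le S k
  -- facts about a point
  have key : ∀ ω, (l k).T.μ ω ≠ 0 →
      Cpd ((gaq s.Q D).cp k) (fmc S hD J k (jx θ J k ((l k).p.π ω), cx s.Q θ J k ((l k).p.π ω))) ∧
      (gaq s.Q D).φ k ((l k).p.π ω) (fmc S hD J k (jx θ J k ((l k).p.π ω), cx s.Q θ J k ((l k).p.π ω))) ≤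
        2 ^ (η * (S.F k).n) := by
    intro ω hω
    set ω' := (l k).p.π ω with hω'
    have hμ : (S.F k).μ ω' ≠ 0 := (l k).p.supp ω hω
    have hl0 := lev_nonneg (θ := θ) (J := J) k ω'
    have hl1 : lev θ J k ω' ≤ 1 := (lev_le hJ k ω' (h4 ω' hμ).1).trans (h4 ω' hμ).2
    have hδ := S.dl_pos (lev θ J k ω') k
    have hδ1 : S.dl (lev θ J k ω') k ≤ 1 := by
      rw [← S.dl_zero k]
      exact S.dl_anti hl0 k
    have hrd : S.dl 1 k ≤ S.dl (lev θ J k ω') k := S.dl_anti hl1 k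
    have hcor : |s.Q.v k ω' 0 - (cx s.Q θ J k ω') * S.dl (lev θ J k ω') k| ≤ S.dl (lev θ J k ω') k := by
      unfold cx
      have f1 := Int.floor_le (s.Q.v k ω' 0 / S.dl (lev θ J k ω') k)
      have f2 := Int.lt_floor_add_one (s.Q.v k ω' 0 / S.dl (lev θ J k ω') k)
      rw [le_div_iff₀ hδ] at f1
      rw [div_lt_iff₀ hδ, add_mul, one_mul] at f2
      rw [abs_le]
      constructor <;> linarith
    have hw : 0 ≤ ((S.dl (lev θ J k ω') k) ^ 2)⁻¹ := by positivity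
    have e0 : fmc S hD J k (jx θ J k ω', cx s.Q θ J k ω') =
        fm hD ((cx s.Q θ J k ω') * S.dl (lev θ J k ω') k) ((S.dl (lev θ J k ω') k) ^ 2)⁻¹ := rfl
    have hw1 : ((S.dl (lev θ J k ω') k) ^ 2)⁻¹ ≤ 2 ^ (2 * (S.F k).n) := by
      have e1 : ((S.dl (lev θ J k ω') k) ^ 2)⁻¹ = 2 ^ (2 * (lev θ J k ω' * (S.F k).n)) := by
        unfold Sp.dl
        rw [← Real.rpow_natCast, ← Real.rpow_mul (by norm_num), ← Real.rpow_neg (by norm_num)]
        congr 1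
        push_cast
        ring
      rw [e1]
      apply Real.rpow_le_rpow_of_exponent_le (by norm_num)
      nlinarith
    have ha : ((cx s.Q θ J k ω') * S.dl (lev θ J k ω') k) ^ 2 ≤ (C k + 1) ^ 2 := by
      rw [← sq_abs]
      apply pow_le_pow_left₀ (abs_nonneg _)
      have g1 := h3 ω' hμ 0
      rw [abs_le] at g1 hcor ⊢
      constructor <;> linarith [g1.1, g1.2, hcor.1, hcor.2]
    rw [e0]
    constructor
    · apply fm_Cpd hD _ _ hw
      have g2 : (2 : ℝ) ^ (2 * (S.F k).n) * (1 + 2 * (1 + (C k + 1) ^ 2)) ≤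
          2 ^ (2 * (S.F k).n) * 2 ^ (2 * (S.F k).n) := mul_le_mul_of_nonneg_left (by linarith) (by positivity)
      have g3 : (2 : ℝ) ^ (2 * (S.F k).n) * 2 ^ (2 * (S.F k).n) ≤ (gaq s.Q D).cp k := by
        rw [← Real.rpow_add (by norm_num)]
        apply Real.rpow_le_rpow_of_exponent_le (by norm_num)
        have g4 : (gaq s.Q D).C = 2 * D + 1 := rfl
        have g5 : (1 : ℝ) ≤ D := by exact_mod_cast hD
        rw [g4]
        nlinarith
      have g6 : (1 : ℝ) ≤ 2 ^ (2 * (S.F k).n) := Real.one_le_rpow (by norm_num) (by positivity)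
      have g7 : ((S.dl (lev θ J k ω') k) ^ 2)⁻¹ * (2 * (1 + ((cx s.Q θ J k ω') * S.dl (lev θ J k ω') k) ^ 2)) ≤
          2 ^ (2 * (S.F k).n) * (2 * (1 + (C k + 1) ^ 2)) :=
        mul_le_mul hw1 (by linarith) (by positivity) (by positivity)
      linarith
    · have g1 := fm_phi hD ((cx s.Q θ J k ω') * S.dl (lev θ J k ω') k) _ hw (S.dl 1 k)
        (S.dl (lev θ J k ω') k) (S.dl_pos 1 k).le hrd (s.Q.v k ω') hcor
      rw [inv_mul_cancel₀ (by positivity), mul_one] at g1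
      refine g1.trans (le_trans ?_ h6)
      have g2 := h2 ω' hμ
      have g3 : (gaq s.Q D).φ k ω' 1 = phi (D := D) (S.dl 1 k) 1 (s.Q.v k ω') := rfl
      linarith
  have hpb : (yx hD s.Q θ J l k).l.T.pb (fun ω => ¬ (gaq s.Q D).φ k ((yx hD s.Q θ J l k).l.p.π ω)
      ((yx hD s.Q θ J l k).g ω) ≤ 2 ^ (η * (S.F k).n)) ≤ η := by
    have g1 : (yx hD s.Q θ J l k).l.T.pb (fun ω => ¬ (gaq s.Q D).φ k ((yx hD s.Q θ J l k).l.p.π ω)
      ((yx hD s.Q θ J l k).g ω) ≤ 2 ^ (η * (S.F k).n)) ≤ (yx hD s.Q θ J l k).l.T.pb (fun _ => False) := by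
      apply FSp.pb_mono
      intro ω h7 h8
      exact h8 (key ω h7).2
    have g2 : (yx hD s.Q θ J l k).l.T.pb (fun _ => False) = 0 := by
      unfold FSp.pb mass
      apply Finset.sum_eq_zero
      intro ω _
      exact res_neg _ _ _ not_false
    linarith
  exact ⟨h1, fun ω h7 => ⟨(key ω h7).1, (key ω h7).1⟩, hpb, hpb⟩

/-- the volume of the canonical form is at most `1` minus the average level -/
theorem vol_le_lev [Finite ι] (s : MSys S 1 E ι) (hD : 1 ≤ D) {c : ℝ} (θ : ∀ k, (S.F k).Ω → ℝ) {J : ℕ} (hJ : 0 < J)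
    (hθ : ∀ᶠ k in UF, ∀ ω, (S.F k).μ ω ≠ 0 → 0 ≤ θ k ω ∧ θ k ω ≤ 1)
    (hV : ∀ i, PLe (fun k => fc (VJ s.Q θ J k)) (s.cnd c i)) {x : ∀ k, FD (S.F k) (Mon 1 D)}
    (hx : s.IsCan D c x) : vol s.Q D x ≤ 1 - ul (fun k => ∑ ω, (S.F k).μ ω * lev θ J k ω) := by
  have hy := yx_Adf s hD θ hJ hθ hV hx.2.1
  refine (vol_opt_le hx.1 hy).trans ?_
  rw [vol_eq]
  have h1 : ∀ᶠ k in UF, ∑ ω, (S.F k).μ ω * lev θ J k ω ≤ vx s.Q (yx hD s.Q θ J (fun k => (x k).l)) k := by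
    refine Eventually.of_forall fun k => ?_
    have hn := (S.F k).pos
    rw [← sum_push (x k).l.p (fun ω => lev θ J k ω)]
    unfold vx
    apply Finset.sum_le_sum
    intro ω _
    apply mul_le_mul_of_nonneg_left _ ((x k).l.T.nn ω)
    set ω' := (x k).l.p.π ω with hω'
    show lev θ J k ω' ≤ Real.logb 2 (GQ (S.dl 1 k) (fm hD ((cx s.Q θ J k ω') * S.dl (lev θ J k ω') k)
      ((S.dl (lev θ J k ω') k) ^ 2)⁻¹) (s.Q.v k ω')) / (2 * (S.F k).n)
    have hδ := S.dl_pos (lev θ J k ω') k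
    have hw : 0 < ((S.dl (lev θ J k ω') k) ^ 2)⁻¹ := by positivity
    have h2 := fm_GQ hD ((cx s.Q θ J k ω') * S.dl (lev θ J k ω') k) _ hw.le (S.dl 1 k) (s.Q.v k ω')
    have h3 := Real.logb_le_logb_of_le (b := 2) (by norm_num) hw h2
    have e1 : ((S.dl (lev θ J k ω') k) ^ 2)⁻¹ = 2 ^ (2 * (lev θ J k ω' * (S.F k).n)) := by
      unfold Sp.dl
      rw [← Real.rpow_natCast, ← Real.rpow_mul (by norm_num), ← Real.rpow_neg (by norm_num)]
      congr 1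
      push_cast
      ring
    have e2 : Real.logb 2 ((S.dl (lev θ J k ω') k) ^ 2)⁻¹ = 2 * (lev θ J k ω' * (S.F k).n) := by
      rw [e1, Real.logb_rpow (by norm_num) (by norm_num)]
    rw [e2] at h3
    rw [le_div_iff₀ (by positivity)]
    linarith
  have hU : UB (fun k => ∑ ω, (S.F k).μ ω * lev θ J k ω) := by
    refine UB_of_nonneg_le (C := 1) ?_ ?_
    · refine Eventually.of_forall fun k => Finset.sum_nonneg fun ω _ => ?_
      exact mul_nonneg ((S.F k).nn ω) (lev_nonneg k ω)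
    · filter_upwards [hθ] with k hk
      have e1 : (1 : ℝ) = ∑ ω, (S.F k).μ ω := (S.F k).ms.symm
      rw [e1]
      apply Finset.sum_le_sum
      intro ω _
      by_cases h0 : (S.F k).μ ω = 0
      · rw [h0, zero_mul]
      · have := (lev_le hJ k ω (hk ω h0).1).trans (hk ω h0).2
        have h2 := (S.F k).nn ω
        nlinarith
  have h2 := ul_mono hU (vx_UB hy) h1
  push_cast
  linarith

end

end Pool.Agent.Helper14.MT1
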