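import Pool.Agent.Helper14.MT1.Main

/-! ST 1: the partial derivatives of the chart of a leaf of the line. -/

set_option autoImplicit false

namespace Pool.Agent.Helper14.MT1

open Finset Filter Topology Matrix Pool.Agent.Helper69.RK Pool.Agent.Helper31.EC Pool.Agent.Helper31.EC.Sp
open Pool.Agent.Helper40.EL Pool.Agent.Helper84.MT

noncomputable section

variable {S : Sp} {E : ℕ → ℕ}

/-- Remez and Bernstein on axis-parallel segments of the open cube -/
def AxP {e : ℕ} (N : ℕ) (K : ℝ) (Y : Fin e → ℝ) (f : (Fin e → ℝ) → ℝ) : Prop :=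
  ∀ y : Fin e → ℝ, (∀ i, |y i - Y i| < 1) → ∀ (j : Fin e) (al be : ℝ), |al - Y j| < 1 → |be - Y j| < 1 →
    RemS N K (fun u => f (Function.update y j (al + u * (be - al)))) ∧
    BmS K (fun u => f (Function.update y j (al + u * (be - al))))

theorem rems_congr {N : ℕ} {B : ℝ} {φ ψ : ℝ → ℝ} (h : RemS N B φ) (he : ∀ u ∈ Set.Icc (0 : ℝ) 1, φ u = ψ u) :
    RemS N B ψ := by
  intro x δ ε hδ hx hsep hε u hu
  rw [← he u hu]
  exact h x δ ε hδ hx hsep (fun i => by rw [he _ (hx i)]; exact hε i) u hu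

theorem bms_congr {B : ℝ} {φ ψ : ℝ → ℝ} (h : BmS B φ) (he : ∀ u ∈ Set.Icc (0 : ℝ) 1, φ u = ψ u) : BmS B ψ := by
  intro A hA u hu u' hu'
  rw [← he u hu, ← he u' hu']
  exact h A (fun v hv => by rw [he v hv]; exact hA v hv) u hu u' hu'

/-- the partial derivatives of the chart -/
def gr {M : ℕ} {Q : S.VV M} (l : Leaf S Q E) (i : Fin M) (k : ℕ) (ω : (S.F k).Ω) (a : Fin l.e) (y : Fin l.e → ℝ) : ℝ :=
  deriv (fun t => l.F k ω (Function.update y a t) i) (y a)

section
variable {M : ℕ} {Q : S.VV M} (l : Leaf S Q E) (i : Fin M)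

theorem upd_lt {e : ℕ} {Y y : Fin e → ℝ} (hy : ∀ i, |y i - Y i| < 1) {a : Fin e} {t : ℝ} (ht : |t - Y a| < 1) :
    ∀ i, |Function.update y a t i - Y i| < 1 := by
  intro i
  by_cases h : i = a
  · subst h
    rw [Function.update_self]
    exact ht
  · rw [Function.update_of_ne h]
    exact hy i

/-- the derivative is in the algebra -/
theorem gr_al : ∀ᶠ k in UF, ∀ ω, (S.F k).μ ω ≠ 0 → ∀ a, ∃ g ∈ l.al k ω 2, ∀ y : Fin l.e → ℝ,
    (∀ j, |y j - l.Y.v k ω j| < 1) → HasDerivAt (fun t => l.F k ω (Function.update y a t) i) (g y) (y a) ∧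
      gr l i k ω a y = g y := by
  filter_upwards [l.alg, l.crF] with k h1 h2 ω hω a
  obtain ⟨g, hg, h3⟩ := (h1 ω hω).der 1 _ (h2 ω hω i) a
  exact ⟨g, hg, fun y hy => ⟨h3 y hy, (h3 y hy).deriv⟩⟩

theorem gr_hasDerivAt : ∀ᶠ k in UF, ∀ ω, (S.F k).μ ω ≠ 0 → ∀ a, ∀ y : Fin l.e → ℝ,
    (∀ j, |y j - l.Y.v k ω j| < 1) → HasDerivAt (fun t => l.F k ω (Function.update y a t) i) (gr l i k ω a y)
      (y a) := by
  filter_upwards [gr_al l i] with k h ω hω a y hy
  obtain ⟨g, hg, h1⟩ := h ω hω a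
  rw [(h1 y hy).2]
  exact (h1 y hy).1

/-- Remez and Bernstein for the derivatives -/
theorem gr_AxP : ∃ K : ℕ → ℝ, S.Sub K ∧ ∀ᶠ k in UF, ∀ ω, (S.F k).μ ω ≠ 0 → ∀ a,
    AxP (E 2 + 1) (K k) (l.Y.v k ω) (gr l i k ω a) := by
  obtain ⟨K, hK, hs⟩ := l.seg 2
  refine ⟨K, hK, ?_⟩
  filter_upwards [gr_al l i, hs, hK.1] with k h1 h2 hK0 ω hω a y hy j al be hal hbe
  obtain ⟨g, hg, h3⟩ := h1 ω hω a
  have h4 := h2 ω hω g hg (Function.update y j al) (Function.update y j be)
    (fun i => (upd_lt hy hal i).le) (fun i => (upd_lt hy hbe i).le)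
  have e1 : ∀ u : ℝ, (fun i => Function.update y j al i + u * (Function.update y j be i -
      Function.update y j al i)) = Function.update y j (al + u * (be - al)) := by
    intro u
    funext i
    by_cases h : i = j
    · subst h
      rw [Function.update_self, Function.update_self, Function.update_self]
    · rw [Function.update_of_ne h, Function.update_of_ne h, Function.update_of_ne h]
      ring
  have e2 : ∀ u ∈ Set.Icc (0 : ℝ) 1, g (fun i => Function.update y j al i + u * (Function.update y j be i -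
      Function.update y j al i)) = gr l i k ω a (Function.update y j (al + u * (be - al))) := by
    intro u hu
    rw [e1 u]
    symm
    apply (h3 _ (upd_lt hy ?_)).2
    rw [abs_lt] at hal hbe ⊢
    have e3 : al + u * (be - al) - l.Y.v k ω j = (1 - u) * (al - l.Y.v k ω j) + u * (be - l.Y.v k ω j) := by ring
    rw [e3]
    rcases eq_or_lt_of_le hu.1 with h0 | h0
    · rw [← h0]
      constructor <;> linarith [hal.1, hal.2]
    · have h1u : 0 ≤ 1 - u := by linarith [hu.2]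
      constructor <;> nlinarith [hal.1, hal.2, hbe.1, hbe.2]
  exact ⟨rems_congr (h4.1.mono (Nat.le_succ _) hK0 le_rfl) e2, bms_congr h4.2 e2⟩

/-- the derivatives at the parameter are bounded -/
theorem gr_bd : ∃ K : ℕ → ℝ, S.Sub K ∧ ∀ᶠ k in UF, ∀ ω, (S.F k).μ ω ≠ 0 → ∀ a, |gr l i k ω a (l.Y.v k ω)| ≤ K k := by
  obtain ⟨K, hK, hb⟩ := l.lip
  refine ⟨K, hK, ?_⟩
  filter_upwards [gr_hasDerivAt l i, hb, hK.1] with k h1 h2 hK0 ω hω a
  have h0 : ∀ j, |l.Y.v k ω j - l.Y.v k ω j| < 1 := fun j => by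
    rw [sub_self, abs_zero]
    exact one_pos
  have h3 := h1 ω hω a (l.Y.v k ω) h0
  rw [← Real.norm_eq_abs]
  apply h3.le_of_lip' hK0
  have h4 : ∀ᶠ t in 𝓝 (l.Y.v k ω a), |t - l.Y.v k ω a| < 1 := by
    have := Metric.ball_mem_nhds (l.Y.v k ω a) (one_pos (α := ℝ))
    filter_upwards [this] with t ht
    rwa [Metric.mem_ball, Real.dist_eq] at ht
  filter_upwards [h4] with t ht
  rw [Real.norm_eq_abs, Real.norm_eq_abs]
  have h5 := h2 ω hω (Function.update (l.Y.v k ω) a t) (Function.update (l.Y.v k ω) a (l.Y.v k ω a))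
    (fun j => (upd_lt h0 ht j).le) (fun j => (upd_lt h0 (h0 a) j).le) i
  refine h5.trans ?_
  apply mul_le_mul_of_nonneg_left _ hK0
  rw [Finset.sum_eq_single a]
  · rw [Function.update_self, Function.update_self]
  · intro b _ hb
    rw [Function.update_of_ne hb, Function.update_of_ne hb, sub_self, abs_zero]
  · intro h
    exact absurd (Finset.mem_univ a) h

end

end

end Pool.Agent.Helper14.MT1
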