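import Pool.Agent.Helper84.MT.Canf
import Pool.Agent.Helper59.EV.Vol
import Pool.Agent.Helper59.LF.Add

/-! ST 1 (base case of the multi-type layer): the label which knows the point of the line to a variable level. -/

set_option autoImplicit false

namespace Pool.Agent.Helper14.MT1

open Finset Filter Topology Matrix Pool.Agent.Helper69.RK Pool.Agent.Helper31.EC Pool.Agent.Helper31.EC.Sp
open Pool.Agent.Helper40.EL
open Pool.Agent.Helper59.EV (CH_lab CH_cardv)
open Pool.Agent.Helper59.EN (mass_nn res_nn)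

noncomputable section

/-- number of integers near an integer -/
theorem card_near (T : Finset (ℕ × ℤ)) (j : ℕ) (z0 : ℤ) (D : ℝ) (hD : 0 ≤ D)
    (h : ∀ a ∈ T, a.1 = j ∧ |(a.2 : ℝ) - z0| ≤ D) : (T.card : ℝ) ≤ 2 * D + 1 := by
  classical
  have h1 : (T.image Prod.snd).card = T.card := by
    apply Finset.card_image_of_injOn
    intro a ha b hb hab
    have h2 := (h a ha).1
    have h3 := (h b hb).1
    exact Prod.ext (h2.trans h3.symm) hab
  have h2 : T.image Prod.snd ⊆ Finset.Icc (z0 - ⌊D⌋) (z0 + ⌊D⌋) := by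
    intro z hz
    rw [Finset.mem_image] at hz
    obtain ⟨a, ha, rfl⟩ := hz
    have h3 := abs_le.1 (h a ha).2
    rw [Finset.mem_Icc]
    constructor
    · have h4 : -⌊D⌋ ≤ a.2 - z0 := by
        have h5 : ((z0 - a.2 : ℤ) : ℝ) ≤ D := by
          push_cast
          linarith [h3.1]
        have := Int.le_floor.2 h5
        linarith
      linarith
    · have h5 : ((a.2 - z0 : ℤ) : ℝ) ≤ D := by
        push_cast
        linarith [h3.2]
      have := Int.le_floor.2 h5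
      linarith
  have h3 := Finset.card_le_card h2
  rw [h1, Int.card_Icc] at h3
  have h4 : 0 ≤ ⌊D⌋ := Int.floor_nonneg.2 hD
  have h5 : ((z0 + ⌊D⌋ + 1 - (z0 - ⌊D⌋)).toNat : ℤ) = 2 * ⌊D⌋ + 1 := by
    rw [Int.toNat_of_nonneg (by linarith)]
    ring
  have h6 : (T.card : ℤ) ≤ 2 * ⌊D⌋ + 1 := by
    rw [← h5]
    exact_mod_cast h3
  have h7 : (T.card : ℝ) ≤ 2 * ⌊D⌋ + 1 := by exact_mod_cast h6
  have h8 := Int.floor_le D
  linarith

variable {S : Sp} (Q : S.VV 1) (θ : ∀ k, (S.F k).Ω → ℝ) (J : ℕ)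

/-- the level, in parts `1 / J` -/
def jx (k : ℕ) (ω : (S.F k).Ω) : ℕ := ⌊(J : ℝ) * θ k ω⌋₊

/-- the level -/
def lev (k : ℕ) (ω : (S.F k).Ω) : ℝ := (jx θ J k ω : ℝ) / J

/-- the cell of the point at its level -/
def cx (k : ℕ) (ω : (S.F k).Ω) : ℤ := ⌊Q.v k ω 0 / S.dl (lev θ J k ω) k⌋

/-- the partition: the level and the cell -/
def VJ (k : ℕ) : Setoid (S.F k).Ω := Setoid.ker (fun ω => (jx θ J k ω, cx Q θ J k ω))

variable {θ J}

theorem lev_nonneg (k : ℕ) (ω : (S.F k).Ω) : 0 ≤ lev θ J k ω := div_nonneg (Nat.cast_nonneg _) (Nat.cast_nonneg _)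

theorem lev_le (hJ : 0 < J) (k : ℕ) (ω : (S.F k).Ω) (h : 0 ≤ θ k ω) : lev θ J k ω ≤ θ k ω := by
  have hJ' : (0 : ℝ) < J := by exact_mod_cast hJ
  unfold lev jx
  rw [div_le_iff₀ hJ', mul_comm (θ k ω)]
  exact Nat.floor_le (mul_nonneg hJ'.le h)

theorem le_lev (hJ : 0 < J) (k : ℕ) (ω : (S.F k).Ω) : θ k ω ≤ lev θ J k ω + 1 / J := by
  have hJ' : (0 : ℝ) < J := by exact_mod_cast hJ
  unfold lev jx
  rw [← add_div, le_div_iff₀ hJ', mul_comm (θ k ω)]
  exact (Nat.lt_floor_add_one _).le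

theorem jx_le (k : ℕ) (ω : (S.F k).Ω) (h : θ k ω ≤ 1) : jx θ J k ω ≤ J := by
  unfold jx
  have h1 : (J : ℝ) * θ k ω ≤ J := by
    have := mul_le_mul_of_nonneg_left h (Nat.cast_nonneg (α := ℝ) J)
    linarith
  have h2 := Nat.floor_le_floor h1
  rwa [Nat.floor_natCast] at h2

/-- the label is a function of every information which knows the point to precision `2 ^ (- θ n)` -/
theorem VJ_near (hJ : 0 < J)
    (hθ : ∀ᶠ k in UF, ∀ ω, (S.F k).μ ω ≠ 0 → 0 ≤ θ k ω ∧ θ k ω ≤ 1)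
    (B : ∀ k, Setoid (S.F k).Ω) (E : ∀ k, (S.F k).Ω → Prop) (hE : Typ E) (K : ℕ → ℝ) (hK : S.Sub K)
    (hh : ∀ᶠ k in UF, ∀ ω ω', (S.F k).μ ω ≠ 0 → (S.F k).μ ω' ≠ 0 → E k ω → E k ω' → (S.F k).Z ω ω' →
      B k ω ω' → |Q.v k ω 0 - Q.v k ω' 0| ≤ K k * S.dl (θ k ω) k) :
    PLe (fun k => fc (VJ Q θ J k)) (fun k => fc (B k)) := by
  classical
  obtain ⟨C, hC, hb⟩ := Q.bd
  have hK' : S.Sub (fun k => 2 * K k + 1) := ((S.Sub_const (by norm_num)).mul hK).add (S.Sub_const zero_le_one)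
  have hC' : S.Sub (fun k => 4 * C k + 1) := ((S.Sub_const (by norm_num)).mul hC).add (S.Sub_const zero_le_one)
  set lJ : ℝ := Real.logb 2 (J + 1) with hlJ
  set p0 : ℕ → ℝ := fun k => mass (res (S.F k).μ (fun ω => ¬ E k ω)) with hp0
  have hp0t : Tendsto p0 UF (𝓝 0) := hE
  have h1 : Tendsto (fun k => (lJ + 1) / (S.F k).n + Real.logb 2 ((2 * K k + 1) + 2) / (S.F k).n +
      p0 k * (Real.logb 2 ((4 * C k + 1) + 2) / (S.F k).n + 1)) UF (𝓝 0) := by
    have t1 := ((S.div_n_tendsto (lJ + 1)).add hK'.2).add (hp0t.mul (hC'.2.add_const 1))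
    simpa using t1
  refine squeeze_zero' (Eventually.of_forall fun k => div_nonneg (h_nonneg _ _) (S.F k).pos.le) ?_ h1
  filter_upwards [hh, hθ, hb, hK.1, hC.1] with k hk hθk hbk hK0 hC0
  have hn := (S.F k).pos
  have hnn := (S.F k).nn
  have hms : mass (S.F k).μ = 1 := (S.F k).ms
  rw [div_le_iff₀ hn]
  set f : (S.F k).Ω → ℕ × ℤ := fun ω => (jx θ J k ω, cx Q θ J k ω) with hf
  set g := Quotient.mk (B k ⊓ (S.F k).Z) with hg
  have e1 : h (fc (VJ Q θ J k)) (fc (B k)) = CH (S.F k).μ f g := by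
    rw [h_fc]
    apply FSp.e_congr
    · intro ω ω' _ _
      exact Iff.rfl
    · intro ω ω' _ _
      exact Quotient.eq.symm
  rw [e1]
  have a1 := CH_lab (S.F k).μ f g (jx θ J k) J hnn hms (fun ω hω => jx_le k ω (hθk ω hω).2)
  have a2 := CH_lab (S.F k).μ f (fun ω => (g ω, jx θ J k ω)) (fun ω => if E k ω then 1 else 0) 1 hnn hms (by
    intro ω _
    split_ifs <;> omega)
  have e2 : Real.logb 2 ((1 : ℕ) + 1) = 1 := by
    norm_num
  rw [e2] at a2
  -- the number of values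
  set c : (S.F k).Ω → ℝ := fun ω => if E k ω then (2 * K k + 1) + 2 else ((4 * C k + 1) + 2) * 2 ^ ((S.F k).n) with hc
  have a3 := CH_cardv (S.F k).μ f (fun ω => ((g ω, jx θ J k ω), (if E k ω then 1 else 0 : ℕ))) c hnn (by
    intro ω hω T hT
    have hl0 := lev_nonneg (θ := θ) (J := J) k ω
    have hl1 := lev_le hJ k ω (hθk ω hω).1
    have hδ := S.dl_pos (lev θ J k ω) k
    have key : ∀ D : ℝ, 0 ≤ D → (∀ ω', (S.F k).μ ω' ≠ 0 → g ω' = g ω → (E k ω ↔ E k ω') →
        |Q.v k ω 0 - Q.v k ω' 0| ≤ D * S.dl (lev θ J k ω) k) → (T.card : ℝ) ≤ 2 * (D + 1) + 1 := by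
      intro D hD hDD
      apply card_near T (jx θ J k ω) (cx Q θ J k ω) (D + 1) (by linarith)
      intro a ha
      obtain ⟨ω', h3, h4, h5⟩ := hT a ha
      rw [Prod.mk.injEq, Prod.mk.injEq] at h4
      obtain ⟨⟨h6, h7⟩, h8⟩ := h4
      have h9 : E k ω ↔ E k ω' := by
        by_cases hc1 : E k ω
        · by_cases hc2 : E k ω'
          · exact ⟨fun _ => hc2, fun _ => hc1⟩
          · rw [if_neg hc2, if_pos hc1] at h8
            exact absurd h8 (by norm_num)
        · by_cases hc2 : E k ω'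
          · rw [if_pos hc2, if_neg hc1] at h8
            exact absurd h8 (by norm_num)
          · exact ⟨fun hx => absurd hx hc1, fun hx => absurd hx hc2⟩
      have h10 := hDD ω' h3 h6 h9
      rw [← h5]
      refine ⟨h7, ?_⟩
      have e3 : lev θ J k ω' = lev θ J k ω := by
        unfold lev
        rw [h7]
      show |((cx Q θ J k ω' : ℤ) : ℝ) - (cx Q θ J k ω : ℤ)| ≤ D + 1
      unfold cx
      rw [e3]
      have f1 := Int.floor_le (Q.v k ω' 0 / S.dl (lev θ J k ω) k)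
      have f2 := Int.lt_floor_add_one (Q.v k ω' 0 / S.dl (lev θ J k ω) k)
      have f3 := Int.floor_le (Q.v k ω 0 / S.dl (lev θ J k ω) k)
      have f4 := Int.lt_floor_add_one (Q.v k ω 0 / S.dl (lev θ J k ω) k)
      have f5 : |Q.v k ω 0 / S.dl (lev θ J k ω) k - Q.v k ω' 0 / S.dl (lev θ J k ω) k| ≤ D := by
        rw [← sub_div, abs_div, abs_of_pos hδ, div_le_iff₀ hδ]
        exact h10
      rw [abs_le] at f5 ⊢
      constructor <;> linarith [f5.1, f5.2]
    by_cases hEω : E k ω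
    · have e4 : c ω = (2 * K k + 1) + 2 := if_pos hEω
      rw [e4]
      refine (key (K k) hK0 ?_).trans (by linarith)
      intro ω' h3 h4 h5
      have h6 : (B k ⊓ (S.F k).Z) ω' ω := Quotient.exact h4
      have h7 := hk ω ω' hω h3 hEω (h5.1 hEω) ((S.F k).Z.symm h6.2) ((B k).symm h6.1)
      refine h7.trans (mul_le_mul_of_nonneg_left ?_ hK0)
      exact S.dl_anti hl1 k
    · have e4 : c ω = ((4 * C k + 1) + 2) * 2 ^ ((S.F k).n) := if_neg hEω
      rw [e4]
      have hp : (1 : ℝ) ≤ 2 ^ ((S.F k).n) := Real.one_le_rpow (by norm_num) hn.le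
      refine (key (2 * C k * 2 ^ ((S.F k).n)) (by positivity) ?_).trans ?_
      · intro ω' h3 _ _
        have h6 := hbk ω hω 0
        have h7 := hbk ω' h3 0
        have h8 : |Q.v k ω 0 - Q.v k ω' 0| ≤ 2 * C k := by
          rw [abs_le] at h6 h7 ⊢
          constructor <;> linarith [h6.1, h6.2, h7.1, h7.2]
        refine h8.trans ?_
        have h9 : 1 ≤ 2 ^ ((S.F k).n) * S.dl (lev θ J k ω) k := by
          unfold Sp.dl
          rw [← Real.rpow_add (by norm_num)]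
          apply Real.one_le_rpow (by norm_num)
          have : lev θ J k ω ≤ 1 := hl1.trans (hθk ω hω).2
          nlinarith
        have h10 : 2 * C k * 1 ≤ 2 * C k * (2 ^ ((S.F k).n) * S.dl (lev θ J k ω) k) :=
          mul_le_mul_of_nonneg_left h9 (by linarith)
        linarith
      · nlinarith)
  have hL1 : 0 ≤ Real.logb 2 ((2 * K k + 1) + 2) := Real.logb_nonneg (by norm_num) (by linarith)
  have hL2 : 0 ≤ Real.logb 2 ((4 * C k + 1) + 2) + (S.F k).n := by
    have : 0 ≤ Real.logb 2 ((4 * C k + 1) + 2) := Real.logb_nonneg (by norm_num) (by linarith)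
    linarith
  have a4 : ∑ ω, (S.F k).μ ω * Real.logb 2 (c ω) ≤ Real.logb 2 ((2 * K k + 1) + 2) +
      p0 k * (Real.logb 2 ((4 * C k + 1) + 2) + (S.F k).n) := by
    have h2 : ∀ ω, (S.F k).μ ω * Real.logb 2 (c ω) ≤ (S.F k).μ ω * Real.logb 2 ((2 * K k + 1) + 2) +
        res (S.F k).μ (fun ω => ¬ E k ω) ω * (Real.logb 2 ((4 * C k + 1) + 2) + (S.F k).n) := by
      intro ω
      by_cases hEω : E k ω
      · have e4 : c ω = (2 * K k + 1) + 2 := if_pos hEω
        have e5 : 0 ≤ res (S.F k).μ (fun ω => ¬ E k ω) ω := res_nn _ _ hnn ω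
        rw [e4]
        have := mul_nonneg e5 hL2
        linarith
      · have e4 : c ω = ((4 * C k + 1) + 2) * 2 ^ ((S.F k).n) := if_neg hEω
        have e5 : res (S.F k).μ (fun ω => ¬ E k ω) ω = (S.F k).μ ω := res_pos _ _ _ hEω
        rw [e4, e5, Real.logb_mul (by positivity) (by positivity), Real.logb_rpow (by norm_num) (by norm_num)]
        have := mul_nonneg (hnn ω) hL1
        linarith
    refine (Finset.sum_le_sum fun ω _ => h2 ω).trans (le_of_eq ?_)
    rw [Finset.sum_add_distrib, ← Finset.sum_mul, ← Finset.sum_mul]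
    have e6 : ∑ ω, (S.F k).μ ω = 1 := (S.F k).ms
    rw [e6, one_mul]
    rfl
  have e7 : ((lJ + 1) / (S.F k).n + Real.logb 2 ((2 * K k + 1) + 2) / (S.F k).n +
      p0 k * (Real.logb 2 ((4 * C k + 1) + 2) / (S.F k).n + 1)) * (S.F k).n =
      (lJ + 1) + Real.logb 2 ((2 * K k + 1) + 2) + p0 k * (Real.logb 2 ((4 * C k + 1) + 2) + (S.F k).n) := by
    field_simp
  rw [e7]
  linarith

end

end Pool.Agent.Helper14.MT1
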