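import Pool.Agent.Helper14.MT1.Ent

/-! ST 1: the lower bound, and `ST 1` for systems whose types have slopes. -/

set_option autoImplicit false

namespace Pool.Agent.Helper14.MT1

open Finset Filter Topology Matrix Pool.Agent.Helper69.RK Pool.Agent.Helper31.EC Pool.Agent.Helper31.EC.Sp
open Pool.Agent.Helper40.EL Pool.Agent.Helper89.LX Pool.Agent.Helper3.LF Pool.Agent.Helper84.MT
open Pool.Agent.Helper14.MC MvPolynomial
open Pool.Agent.Helper95.LF (PdM)
open Pool.Agent.Helper59.LF (fadd fadd_leak h_label)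
open Pool.Agent.Helper59.EN (mass_nn res_nn)

noncomputable section

/-- number of integer vectors near an integer vector -/
theorem card_nearv {e : ℕ} (T : Finset (Fin e → ℤ)) (z0 : Fin e → ℤ) (D : ℝ) (hD : 0 ≤ D)
    (h : ∀ a ∈ T, ∀ i, |(a i : ℝ) - z0 i| ≤ D) : (T.card : ℝ) ≤ (2 * D + 1) ^ e := by
  classical
  have h1 : T ⊆ Fintype.piFinset (fun i : Fin e => Finset.Icc (z0 i - ⌊D⌋) (z0 i + ⌊D⌋)) := by
    intro c hc
    rw [Fintype.mem_piFinset]
    intro i
    have h3 := abs_le.1 (h c hc i)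
    rw [Finset.mem_Icc]
    constructor
    · have h4 : -⌊D⌋ ≤ c i - z0 i := by
        have h5 : ((z0 i - c i : ℤ) : ℝ) ≤ D := by
          push_cast
          linarith [h3.1]
        have := Int.le_floor.2 h5
        linarith
      linarith
    · have h5 : ((c i - z0 i : ℤ) : ℝ) ≤ D := by
        push_cast
        linarith [h3.2]
      have := Int.le_floor.2 h5
      linarith
  have h2 := Finset.card_le_card h1
  rw [Fintype.card_piFinset] at h2
  have h3 : ∀ i : Fin e, ((Finset.Icc (z0 i - ⌊D⌋) (z0 i + ⌊D⌋)).card : ℝ) ≤ 2 * D + 1 := by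
    intro i
    rw [Int.card_Icc]
    have h4 : 0 ≤ ⌊D⌋ := Int.floor_nonneg.2 hD
    have h5 : ((z0 i + ⌊D⌋ + 1 - (z0 i - ⌊D⌋)).toNat : ℤ) = 2 * ⌊D⌋ + 1 := by
      rw [Int.toNat_of_nonneg (by linarith)]
      ring
    have h6 : (((z0 i + ⌊D⌋ + 1 - (z0 i - ⌊D⌋)).toNat : ℕ) : ℝ) = 2 * (⌊D⌋ : ℝ) + 1 := by
      exact_mod_cast h5
    rw [h6]
    have := Int.floor_le D
    linarith
  have h4 : (T.card : ℝ) ≤ ∏ i : Fin e, ((Finset.Icc (z0 i - ⌊D⌋) (z0 i + ⌊D⌋)).card : ℝ) := by exact_mod_cast h2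
  refine h4.trans ((Finset.prod_le_prod (fun i _ => Nat.cast_nonneg _) fun i _ => h3 i).trans (le_of_eq ?_))
  rw [Finset.prod_const, Finset.card_univ, Fintype.card_fin]

variable {S : Sp} {E : ℕ → ℕ} {ι : Type}

/-- the cells of the parameter in a window `0` -/
theorem card_win0 {Q : S.VV 1} (l : Leaf S Q E) (k : ℕ) (ω : (S.F k).Ω) (T : Finset (Fin l.e → ℤ))
    (h : ∀ a ∈ T, ∃ ω', (l.La k ⊓ Setoid.ker (l.Y.cellv 0 k)) ω' ω ∧ l.Y.cellv 1 k ω' = a) :
    (T.card : ℝ) ≤ 2 ^ (l.e * ((S.F k).n + 3)) := by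
  have hn := (S.F k).pos
  have hp : (1 : ℝ) ≤ 2 ^ ((S.F k).n) := Real.one_le_rpow (by norm_num) hn.le
  have h1 := card_nearv T (l.Y.cellv 1 k ω) (2 ^ ((S.F k).n) + 1) (by positivity) (by
    intro a ha i
    obtain ⟨ω', h2, rfl⟩ := h a ha
    apply floor_diff (S.dl_pos 1 k)
    have h3 : |l.Y.v k ω' i - l.Y.v k ω i| ≤ S.dl 0 k :=
      abs_sub_le_of_floor_eq (S.dl_pos 0 k) (congrFun h2.2 i)
    refine h3.trans (le_of_eq ?_)
    unfold Sp.dl
    rw [← Real.rpow_add (by norm_num)]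
    congr 1
    ring)
  refine h1.trans ?_
  have h2 : 2 * ((2 : ℝ) ^ ((S.F k).n) + 1) + 1 ≤ 2 ^ ((S.F k).n + 3) := by
    rw [Real.rpow_add (by norm_num)]
    norm_num
    linarith
  refine (pow_le_pow_left₀ (by positivity) h2 _).trans (le_of_eq ?_)
  rw [← Real.rpow_natCast, ← Real.rpow_mul (by norm_num), mul_comm]

/-- the parameter over a label without leak at the window -/
theorem full_lab {M : ℕ} {Q : S.VV M} (l : Leaf S Q E) (lb : Lab S)
    (hleak : Nul S (fun k => (lb k).leak (l.win 0 k))) (ε : ℝ) (hε : 0 < ε) : ∀ᶠ k in UF,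
      (l.e - ε) * (S.F k).n ≤ CH (lb k).T.μ (fun w => l.Y.cellv 1 k ((lb k).p.π w))
        (fun w => (Quotient.mk (l.La k ⊓ Setoid.ker (l.Y.cellv 0 k)) ((lb k).p.π w),
          Quotient.mk ((lb k).V ⊓ (lb k).T.Z) w)) := by
  have h1 := l.full_win le_rfl zero_le_one le_rfl
  rw [sub_zero, mul_one] at h1
  filter_upwards [h1.eventually (lt_mem_nhds (show (l.e : ℝ) - ε / 2 < l.e by linarith)),
    hleak.eventually (gt_mem_nhds (show (0 : ℝ) < ε / 2 by linarith))] with k a1 a2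
  have hn := (S.F k).pos
  rw [lt_div_iff₀ hn] at a1
  rw [div_lt_iff₀ hn] at a2
  have a3 := e_lab_ge (lb k) (Setoid.ker (l.Y.cellv 1 k)) (l.La k ⊓ Setoid.ker (l.Y.cellv 0 k))
  have e1 : Pool.Agent.Helper31.EC.h (fc (Setoid.ker (l.Y.cellv 1 k))) (l.win 0 k) =
      (S.F k).e (Setoid.ker (l.Y.cellv 1 k)) ((l.La k ⊓ Setoid.ker (l.Y.cellv 0 k)) ⊓ (S.F k).Z) := h_fc _ _
  have e2 : (lb k).T.e (Setoid.comap (lb k).p.π (Setoid.ker (l.Y.cellv 1 k)))
      (((lb k).V ⊓ Setoid.comap (lb k).p.π (l.La k ⊓ Setoid.ker (l.Y.cellv 0 k))) ⊓ (lb k).T.Z) =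
      CH (lb k).T.μ (fun w => l.Y.cellv 1 k ((lb k).p.π w))
        (fun w => (Quotient.mk (l.La k ⊓ Setoid.ker (l.Y.cellv 0 k)) ((lb k).p.π w),
          Quotient.mk ((lb k).V ⊓ (lb k).T.Z) w)) := by
    apply FSp.e_congr
    · intro w w' _ _
      exact Iff.rfl
    · intro w w' _ _
      rw [Prod.mk.injEq]
      constructor
      · intro h
        exact ⟨Quotient.sound h.1.2, Quotient.sound ⟨h.1.1, h.2⟩⟩
      · intro h
        have h2 := Quotient.exact h.1
        have h3 := Quotient.exact h.2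
        exact ⟨⟨h3.1, h2⟩, h3.2⟩
  rw [e1] at a1
  rw [e2] at a3
  have e3 : (lb k).leak (fc (l.La k ⊓ Setoid.ker (l.Y.cellv 0 k))) = (lb k).leak (l.win 0 k) := rfl
  rw [e3] at a3
  have e4 : ((l.e : ℝ) - ε) * (S.F k).n = (l.e - ε / 2) * (S.F k).n - ε / 2 * (S.F k).n := by ring
  rw [e4]
  linarith

/-- one type: the entropy of the point on the event where the type has the least slope -/
theorem type_low [Fintype ι] {s : MSys S 1 E ι} (sl : ∀ i, Slp (s.lf i)) (i : ι) (lb : Lab S)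
    (hleak : Nul S (fun k => (lb k).leak ((s.lf i).win 0 k))) (ε : ℝ) (hε : 0 < ε) : ∀ᶠ k in UF,
      mass (res (lb k).T.μ (fun w => stm sl k ((lb k).p.π w) = some i)) * (S.F k).n -
        (∑ w, res (lb k).T.μ (fun w => stm sl k ((lb k).p.π w) = some i) w * thm sl k ((lb k).p.π w)) * (S.F k).n -
        ε * (S.F k).n ≤
      CH (res (lb k).T.μ (fun w => stm sl k ((lb k).p.π w) = some i)) (fun w => s.Q.cellv 1 k ((lb k).p.π w))
        (Quotient.mk ((lb k).V ⊓ (lb k).T.Z)) := by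
  classical
  have hfull := full_lab (s.lf i) lb hleak (ε / 2) (by linarith)
  set e : ℕ := (s.lf i).e with he
  have hG : Tendsto (fun k => mass (res (S.F k).μ (fun ω => ¬ (sl i).G k ω))) UF (𝓝 0) := (sl i).tG
  have herr : Tendsto (fun k => (3 * (e : ℝ) + Real.logb 2 (e + 1) + 2) / (S.F k).n +
      Real.logb 2 ((sl i).K k + 2) / (S.F k).n + mass (res (S.F k).μ (fun ω => ¬ (sl i).G k ω)) *
      (1 + 3 * e / (S.F k).n)) UF (𝓝 0) := by
    have t1 := ((S.div_n_tendsto (3 * (e : ℝ) + Real.logb 2 (e + 1) + 2)).add (sl i).sK.2).add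
      (hG.mul ((S.div_n_tendsto (3 * (e : ℝ))).const_add 1))
    simpa using t1
  filter_upwards [hfull, (sl i).rg, (sl i).s2, (sl i).sK.1, thm_nonneg sl,
    herr.eventually (gt_mem_nhds (show (0 : ℝ) < ε / 2 by linarith))] with k h1 h2 h3 hK0 h4 h5
  have hn := (S.F k).pos
  set π := (lb k).p.π with hπ
  have hμ : ∀ w, 0 ≤ (lb k).T.μ w := (lb k).T.nn
  have hsupp : ∀ w, (lb k).T.μ w ≠ 0 → (S.F k).μ (π w) ≠ 0 := fun w hw => (lb k).p.supp w hw
  set A : (lb k).T.Ω → Prop := fun w => stm sl k (π w) = some i with hA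
  set ν := res (lb k).T.μ A with hν
  have hνs : ∀ w, ν w ≠ 0 → (lb k).T.μ w ≠ 0 ∧ A w := by
    intro w h
    by_cases hc : A w
    · refine ⟨?_, hc⟩
      have e1 : ν w = (lb k).T.μ w := res_pos _ _ _ hc
      rwa [e1] at h
    · have e1 : ν w = 0 := res_neg _ _ _ hc
      exact absurd e1 h
  have hLK : 0 ≤ Real.logb 2 ((sl i).K k + 2) := Real.logb_nonneg (by norm_num) (by linarith)
  have key := fin_low (lb k).T.μ hμ (lb k).T.ms (fun w => s.Q.cellv 1 k (π w)) (Quotient.mk ((lb k).V ⊓ (lb k).T.Z))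
    (fun w => (s.lf i).Y.cellv 1 k (π w))
    (fun w => Quotient.mk ((s.lf i).La k ⊓ Setoid.ker ((s.lf i).Y.cellv 0 k)) (π w)) A
    (fun w => (sl i).G k (π w)) (fun w => (sl i).dr k (π w)) e
    (fun w => ((sl i).K k + 2) * 2 ^ ((e - 1 + (sl i).th k (π w)) * (S.F k).n)) (e * ((S.F k).n + 3))
    (fun w hw => (h2 _ (hsupp w hw)).2.2)
    (by
      intro w hw T hT
      apply card_win0 (s.lf i) k (π w) T
      intro a ha
      obtain ⟨w', b1, b2, b3, b4⟩ := hT a ha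
      exact ⟨π w', Quotient.exact b3, b4⟩)
    (by
      intro w hw hGw T hT
      have c1 := h3 (π w) (hsupp w hw) hGw T (by
        intro a ha
        obtain ⟨w', b1, b2, b3, b4, b5, b6, b7⟩ := hT a ha
        have b8 := Quotient.exact b5
        exact ⟨π w', hsupp w' b1, b2, b3, b4, ((lb k).p.hZ w' w b1 hw).1 b8.2, Quotient.exact b6, b7⟩)
      refine c1.trans ?_
      apply mul_le_mul_of_nonneg_right _ (by positivity)
      linarith)
    (fun w => Real.logb 2 ((sl i).K k + 2) + (e - 1 + thm sl k (π w)) * (S.F k).n) ((S.F k).n + 3 * e)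
    (by positivity)
    (by
      intro w _ hAw _
      rw [Real.logb_mul (by positivity) (by positivity), Real.logb_rpow (by norm_num) (by norm_num),
        stm_some sl k (π w) i hAw])
    (by
      intro w hw _
      have c1 := (h4 (π w) (hsupp w hw)).1
      have c2 := mul_nonneg c1 hn.le
      nlinarith)
  have hPle : mass ν ≤ 1 := by
    have c1 := ((st_E4 st_E1 st_E3).2.2 (lb k).T.Ω (lb k).T.μ A hμ)
    have c2 := mass_nn (res (lb k).T.μ (fun w => ¬ A w)) (res_nn _ _ hμ)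
    have c3 : mass (lb k).T.μ = 1 := (lb k).T.ms
    linarith [c1.1]
  have hP0 : 0 ≤ mass ν := mass_nn _ (res_nn _ _ hμ)
  have e1 : ∑ w, ν w * (Real.logb 2 ((sl i).K k + 2) + (e - 1 + thm sl k (π w)) * (S.F k).n) =
      mass ν * (Real.logb 2 ((sl i).K k + 2) + (e - 1) * (S.F k).n) + (∑ w, ν w * thm sl k (π w)) * (S.F k).n := by
    unfold mass
    rw [Finset.sum_mul, Finset.sum_mul, ← Finset.sum_add_distrib]
    exact Finset.sum_congr rfl fun w _ => by ring
  have e2 : mass (res (lb k).T.μ (fun w => ¬ (sl i).G k (π w))) = mass (res (S.F k).μ (fun ω => ¬ (sl i).G k ω)) :=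
    pb_push (lb k).p (fun ω => ¬ (sl i).G k ω)
  rw [e1, e2] at key
  have h6 : (3 * (e : ℝ) + Real.logb 2 (e + 1) + 2) + Real.logb 2 ((sl i).K k + 2) +
      mass (res (S.F k).μ (fun ω => ¬ (sl i).G k ω)) * ((S.F k).n + 3 * e) ≤ ε / 2 * (S.F k).n := by
    have c1 : (3 * (e : ℝ) + Real.logb 2 (e + 1) + 2) + Real.logb 2 ((sl i).K k + 2) +
      mass (res (S.F k).μ (fun ω => ¬ (sl i).G k ω)) * ((S.F k).n + 3 * e) =
      ((3 * (e : ℝ) + Real.logb 2 (e + 1) + 2) / (S.F k).n +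
      Real.logb 2 ((sl i).K k + 2) / (S.F k).n + mass (res (S.F k).μ (fun ω => ¬ (sl i).G k ω)) *
      (1 + 3 * e / (S.F k).n)) * (S.F k).n := by
      field_simp
    rw [c1]
    exact mul_le_mul_of_nonneg_right h5.le hn.le
  refine le_trans ?_ key
  have h7 : mass ν * Real.logb 2 ((sl i).K k + 2) ≤ Real.logb 2 ((sl i).K k + 2) := by nlinarith
  have h8 : (1 - mass ν) * (3 * e) ≤ 3 * e := by
    have : (0 : ℝ) ≤ e := Nat.cast_nonneg e
    nlinarith
  nlinarith

end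

end Pool.Agent.Helper14.MT1
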