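import Pool.Agent.Helper14.MT1.Low

/-! ST 1 for systems whose types have slopes. -/

set_option autoImplicit false

namespace Pool.Agent.Helper14.MT1

open Finset Filter Topology Matrix Pool.Agent.Helper69.RK Pool.Agent.Helper31.EC Pool.Agent.Helper31.EC.Sp
open Pool.Agent.Helper40.EL Pool.Agent.Helper89.LX Pool.Agent.Helper3.LF Pool.Agent.Helper84.MT
open Pool.Agent.Helper14.MC MvPolynomial
open Pool.Agent.Helper95.LF (PdM)
open Pool.Agent.Helper59.EN (mass_nn res_nn)

noncomputable section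

variable {S : Sp} {E : ℕ → ℕ} {ι : Type}

/-- the average of the least slope -/
def avs [Fintype ι] {s : MSys S 1 E ι} (sl : ∀ i, Slp (s.lf i)) (k : ℕ) : ℝ :=
  ∑ ω, (S.F k).μ ω * thm sl k ω

section
variable [Fintype ι] {s : MSys S 1 E ι} (sl : ∀ i, Slp (s.lf i))

theorem avs_bd : ∀ᶠ k in UF, 0 ≤ avs sl k ∧ avs sl k ≤ 1 := by
  filter_upwards [thm_nonneg sl] with k hk
  constructor
  · apply Finset.sum_nonneg
    intro ω _
    by_cases h0 : (S.F k).μ ω = 0
    · rw [h0, zero_mul]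
    · exact mul_nonneg ((S.F k).nn ω) (hk ω h0).1
  · have e1 : (1 : ℝ) = ∑ ω, (S.F k).μ ω := (S.F k).ms.symm
    rw [e1]
    apply Finset.sum_le_sum
    intro ω _
    by_cases h0 : (S.F k).μ ω = 0
    · rw [h0, zero_mul]
    · have h2 := (S.F k).nn ω
      have h3 := (hk ω h0).2
      nlinarith

theorem avs_UB : UB (avs sl) := by
  refine UB_of_nonneg_le (C := 1) ?_ ?_
  · filter_upwards [avs_bd sl] with k hk using hk.1
  · filter_upwards [avs_bd sl] with k hk using hk.2

/-- THE LOWER BOUND -/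
theorem low_H (lb : Lab S) (hleak : ∀ i, Nul S (fun k => (lb k).leak ((s.lf i).win 0 k))) :
    1 - ul (avs sl) ≤ H (up1 lb (s.Q.dg 1)) := by
  classical
  have hU := avs_UB sl
  have e0 : 1 - ul (avs sl) = ul (fun k => 1 - avs sl k) := by
    have h1 := ul_sub (UB_const 1) hU
    rw [ul_const] at h1
    exact h1.symm
  rw [e0]
  apply le_H_up1 lb s.Q _ ((UB_const 1).sub hU)
  intro ε hε
  set N : ℝ := (Fintype.card ι : ℝ) + 1 with hN
  have hN0 : 0 < N := by positivity
  have hty : ∀ᶠ k in UF, ∀ i, 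
      mass (res (lb k).T.μ (fun w => stm sl k ((lb k).p.π w) = some i)) * (S.F k).n -
        (∑ w, res (lb k).T.μ (fun w => stm sl k ((lb k).p.π w) = some i) w * thm sl k ((lb k).p.π w)) * (S.F k).n -
        ε / N * (S.F k).n ≤
      CH (res (lb k).T.μ (fun w => stm sl k ((lb k).p.π w) = some i)) (fun w => s.Q.cellv 1 k ((lb k).p.π w))
        (Quotient.mk ((lb k).V ⊓ (lb k).T.Z)) := by
    rw [Filter.eventually_all]
    intro i
    exact type_low sl i lb (hleak i) (ε / N) (by positivity)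
  filter_upwards [hty] with k hk
  have hn := (S.F k).pos
  set π := (lb k).p.π with hπ
  have hμ : ∀ w, 0 ≤ (lb k).T.μ w := (lb k).T.nn
  have e1 : Pool.Agent.Helper31.EC.h ((lb k).p.map (pcd s.Q k)) (lb k).v =
      CH (lb k).T.μ (fun w => s.Q.cellv 1 k (π w)) (Quotient.mk ((lb k).V ⊓ (lb k).T.Z)) := by
    have e2 : (lb k).p.map (pcd s.Q k) = fc (Setoid.comap π (Setoid.ker (s.Q.cellv 1 k))) := rfl
    have e3 : (lb k).v = fc (lb k).V := rfl
    rw [e2, e3, h_fc]
    apply FSp.e_congr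
    · intro w w' _ _
      exact Iff.rfl
    · intro w w' _ _
      exact Quotient.eq.symm
  rw [e1, le_div_iff₀ hn]
  refine le_trans ?_ (sum_res_le (lb k).T.μ hμ (fun w => s.Q.cellv 1 k (π w))
    (Quotient.mk ((lb k).V ⊓ (lb k).T.Z)) (fun w => stm sl k (π w)))
  rw [Fintype.sum_option]
  have h1 := (st_E1 (lb k).T.Ω (Fin 1 → ℤ) (Fin 1 → ℤ) _ (res (lb k).T.μ (fun w => stm sl k (π w) = none))
    (fun w => s.Q.cellv 1 k (π w)) (fun w => s.Q.cellv 1 k (π w)) (Quotient.mk ((lb k).V ⊓ (lb k).T.Z))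
    (res_nn _ _ hμ)).1
  have h2 := Finset.sum_le_sum (s := Finset.univ) fun i _ => hk i
  rw [Finset.sum_sub_distrib, Finset.sum_sub_distrib, ← Finset.sum_mul, ← Finset.sum_mul, Finset.sum_const,
    Finset.card_univ, nsmul_eq_mul] at h2
  have h3 : (Fintype.card ι : ℝ) * (ε / N * (S.F k).n) ≤ ε * (S.F k).n := by
    have c1 : ε * (S.F k).n = N * (ε / N * (S.F k).n) := by field_simp
    rw [c1]
    apply mul_le_mul_of_nonneg_right _ (by positivity)
    rw [hN]
    linarith
  -- the identity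
  have h4 : ∀ w, (∑ o : Option ι, res (lb k).T.μ (fun w => stm sl k (π w) = o) w) = (lb k).T.μ w := by
    intro w
    rw [Finset.sum_eq_single (stm sl k (π w))]
    · exact res_pos _ _ _ rfl
    · intro o _ ho
      exact res_neg _ _ _ fun h => ho h.symm
    · intro h
      exact absurd (Finset.mem_univ _) h
  have h5 : ∑ i, mass (res (lb k).T.μ (fun w => stm sl k (π w) = some i)) -
      ∑ i, ∑ w, res (lb k).T.μ (fun w => stm sl k (π w) = some i) w * thm sl k (π w) = 1 - avs sl k := by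
    have c1 : ∀ i, mass (res (lb k).T.μ (fun w => stm sl k (π w) = some i)) -
        ∑ w, res (lb k).T.μ (fun w => stm sl k (π w) = some i) w * thm sl k (π w) =
        ∑ w, res (lb k).T.μ (fun w => stm sl k (π w) = some i) w * (1 - thm sl k (π w)) := by
      intro i
      unfold mass
      rw [← Finset.sum_sub_distrib]
      exact Finset.sum_congr rfl fun w _ => by ring
    have c2 : ∑ w, res (lb k).T.μ (fun w => stm sl k (π w) = none) w * (1 - thm sl k (π w)) = 0 := by
      apply Finset.sum_eq_zero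
      intro w _
      by_cases hc : stm sl k (π w) = none
      · rw [stm_none sl k (π w) hc, sub_self, mul_zero]
      · rw [res_neg _ (fun w => stm sl k (π w) = none) _ hc, zero_mul]
    rw [← Finset.sum_sub_distrib, Finset.sum_congr rfl fun i _ => c1 i]
    have c3 := Fintype.sum_option (fun o : Option ι =>
      ∑ w, res (lb k).T.μ (fun w => stm sl k (π w) = o) w * (1 - thm sl k (π w)))
    rw [c2, zero_add] at c3
    rw [← c3, Finset.sum_comm]
    have c4 : ∀ w, ∑ o : Option ι, res (lb k).T.μ (fun w => stm sl k (π w) = o) w * (1 - thm sl k (π w)) =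
        (lb k).T.μ w * (1 - thm sl k (π w)) := by
      intro w
      rw [← Finset.sum_mul, h4 w]
    rw [Finset.sum_congr rfl fun w _ => c4 w, sum_push (lb k).p (fun ω => 1 - thm sl k ω)]
    unfold avs
    have c5 : (1 : ℝ) = ∑ ω, (S.F k).μ ω := (S.F k).ms.symm
    rw [c5, ← Finset.sum_sub_distrib]
    exact Finset.sum_congr rfl fun w _ => by rw [← c5]; ring
  have h6 : (1 - avs sl k) * (S.F k).n = (∑ i, mass (res (lb k).T.μ (fun w => stm sl k (π w) = some i))) * (S.F k).n -
      (∑ i, ∑ w, res (lb k).T.μ (fun w => stm sl k (π w) = some i) w * thm sl k (π w)) * (S.F k).n := by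
    rw [← h5, sub_mul]
  have h7 : (1 - avs sl k - ε) * (S.F k).n = (1 - avs sl k) * (S.F k).n - ε * (S.F k).n := by ring
  rw [h7, h6]
  linarith

include sl in
/-- `ST 1` for systems whose types have slopes -/
theorem st1_of_slp {D : ℕ} (hD : 1 ≤ D) {x : ∀ k, FD (S.F k) (Mon 1 D)} (hx : s.IsCan D 0 x) :
    vol s.Q D x ≤ H (up1 (fun k => (x k).l) (s.Q.dg 1)) := by
  have h1 : 1 - ul (avs sl) ≤ H (up1 (fun k => (x k).l) (s.Q.dg 1)) :=
    low_H sl (fun k => (x k).l) (fun i => hx.2.1 (some i))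
  refine le_trans ?_ h1
  apply le_of_forall_pos_le_add
  intro ε hε
  obtain ⟨J, hJ⟩ := exists_nat_gt (1 / ε)
  have hJ0 : 0 < J := by
    have h2 : (0 : ℝ) < 1 / ε := by positivity
    exact_mod_cast h2.trans hJ
  have hJ1 : 1 / (J : ℝ) ≤ ε := by
    rw [div_le_iff₀ (by exact_mod_cast hJ0)]
    rw [div_lt_iff₀ hε] at hJ
    linarith
  have h2 := vol_le_lev s hD (thm sl) hJ0 (thm_nonneg sl) (VJ_cnd sl hJ0) hx
  have h3 : ∀ᶠ k in UF, avs sl k ≤ ∑ ω, (S.F k).μ ω * lev (thm sl) J k ω + 1 / J := by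
    refine Eventually.of_forall fun k => ?_
    have e1 : (1 : ℝ) / J = ∑ ω, (S.F k).μ ω * (1 / J) := by
      have e2 : (1 : ℝ) = ∑ ω, (S.F k).μ ω := (S.F k).ms.symm
      rw [← Finset.sum_mul, ← e2, one_mul]
    rw [e1, ← Finset.sum_add_distrib]
    unfold avs
    apply Finset.sum_le_sum
    intro ω _
    rw [← mul_add]
    exact mul_le_mul_of_nonneg_left (le_lev hJ0 k ω) ((S.F k).nn ω)
  have hU : UB (fun k => ∑ ω, (S.F k).μ ω * lev (thm sl) J k ω) := by
    refine UB_of_nonneg_le (C := 1) ?_ ?_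
    · refine Eventually.of_forall fun k => Finset.sum_nonneg fun ω _ => ?_
      exact mul_nonneg ((S.F k).nn ω) (lev_nonneg k ω)
    · filter_upwards [thm_nonneg sl] with k hk
      have e1 : (1 : ℝ) = ∑ ω, (S.F k).μ ω := (S.F k).ms.symm
      rw [e1]
      apply Finset.sum_le_sum
      intro ω _
      by_cases h0 : (S.F k).μ ω = 0
      · rw [h0, zero_mul]
      · have h4 := (lev_le hJ0 k ω (hk ω h0).1).trans (hk ω h0).2
        have h5 := (S.F k).nn ω
        nlinarith
  have h4 := ul_mono (avs_UB sl) (hU.add (UB_const (1 / (J : ℝ)))) h3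
  rw [ul_add hU (UB_const _), ul_const] at h4
  linarith

end

end

end Pool.Agent.Helper14.MT1
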