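import Mathlib

/-! ST 1: counting integer vectors which are separated in one direction. -/

set_option autoImplicit false

namespace Pool.Agent.Helper14.MT1

open Finset

noncomputable section

/-- number of integer vectors near an integer vector, different radii -/
theorem card_nearw {e : ℕ} (T : Finset (Fin e → ℤ)) (z0 : Fin e → ℤ) (D : Fin e → ℝ) (hD : ∀ i, 0 ≤ D i)
    (h : ∀ a ∈ T, ∀ i, |(a i : ℝ) - z0 i| ≤ D i) : (T.card : ℝ) ≤ ∏ i, (2 * D i + 1) := by
  classical
  have h1 : T ⊆ Fintype.piFinset (fun i : Fin e => Finset.Icc (z0 i - ⌊D i⌋) (z0 i + ⌊D i⌋)) := by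
    intro c hc
    rw [Fintype.mem_piFinset]
    intro i
    have h3 := abs_le.1 (h c hc i)
    rw [Finset.mem_Icc]
    constructor
    · have h5 : ((z0 i - c i : ℤ) : ℝ) ≤ D i := by
        push_cast
        linarith [h3.1]
      have := Int.le_floor.2 h5
      linarith
    · have h5 : ((c i - z0 i : ℤ) : ℝ) ≤ D i := by
        push_cast
        linarith [h3.2]
      have := Int.le_floor.2 h5
      linarith
  have h2 := Finset.card_le_card h1
  rw [Fintype.card_piFinset] at h2
  have h3 : ∀ i : Fin e, ((Finset.Icc (z0 i - ⌊D i⌋) (z0 i + ⌊D i⌋)).card : ℝ) ≤ 2 * D i + 1 := by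
    intro i
    rw [Int.card_Icc]
    have h4 : 0 ≤ ⌊D i⌋ := Int.floor_nonneg.2 (hD i)
    have h5 : ((z0 i + ⌊D i⌋ + 1 - (z0 i - ⌊D i⌋)).toNat : ℤ) = 2 * ⌊D i⌋ + 1 := by
      rw [Int.toNat_of_nonneg (by linarith)]
      ring
    have h6 : (((z0 i + ⌊D i⌋ + 1 - (z0 i - ⌊D i⌋)).toNat : ℕ) : ℝ) = 2 * (⌊D i⌋ : ℝ) + 1 := by
      exact_mod_cast h5
    rw [h6]
    have := Int.floor_le (D i)
    linarith
  have h4 : (T.card : ℝ) ≤ ∏ i : Fin e, ((Finset.Icc (z0 i - ⌊D i⌋) (z0 i + ⌊D i⌋)).card : ℝ) := by exact_mod_cast h2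
  exact h4.trans (Finset.prod_le_prod (fun i _ => Nat.cast_nonneg _) fun i _ => h3 i)

/-- vectors which are separated in one direction -/
theorem card_sep {e : ℕ} (T : Finset (Fin e → ℤ)) (z0 : Fin e → ℤ) (a : Fin e) (D R L : ℝ) (hD : 0 ≤ D) (hR : 0 < R)
    (hL : 0 ≤ L) (h : ∀ c ∈ T, ∀ i, |(c i : ℝ) - z0 i| ≤ D)
    (hs : ∀ c ∈ T, ∀ c' ∈ T, (∀ i, i ≠ a → c i = c' i) → |(c a : ℝ) - c' a| ≤ R → |(c a : ℝ) - c' a| ≤ L) :
    (T.card : ℝ) ≤ (L + 1) * ((2 * (D / R + 1) + 1) * (2 * D + 1) ^ (e - 1)) := by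
  classical
  set f : (Fin e → ℤ) → Fin e → ℤ := fun c => Function.update c a ⌊(c a : ℝ) / R⌋ with hf
  -- fibres
  have h1 : ∀ v ∈ T.image f, (T.filter (fun c => f c = v)).card ≤ ⌊L⌋₊ + 1 := by
    intro v _
    rcases (T.filter (fun c => f c = v)).eq_empty_or_nonempty with h0 | h0
    · rw [h0, Finset.card_empty]
      omega
    obtain ⟨c0, hc0, hmin⟩ := Finset.exists_min_image _ (fun c : Fin e → ℤ => c a) h0
    have hT : ∀ c ∈ T.filter (fun c => f c = v), c ∈ T ∧ (∀ i, i ≠ a → c i = c0 i) ∧ |(c a : ℝ) - c0 a| ≤ L := by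
      intro c hc
      rw [Finset.mem_filter] at hc hc0
      have h2 : f c = f c0 := hc.2.trans hc0.2.symm
      have h3 : ∀ i, i ≠ a → c i = c0 i := by
        intro i hi
        have h4 := congrFun h2 i
        simp only [hf, Function.update_of_ne hi] at h4
        exact h4
      refine ⟨hc.1, h3, hs c hc.1 c0 hc0.1 h3 ?_⟩
      have h4 := congrFun h2 a
      simp only [hf, Function.update_self] at h4
      have f1 := Int.floor_le ((c a : ℝ) / R)
      have f2 := Int.lt_floor_add_one ((c a : ℝ) / R)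
      have f3 := Int.floor_le ((c0 a : ℝ) / R)
      have f4 := Int.lt_floor_add_one ((c0 a : ℝ) / R)
      rw [h4] at f1 f2
      have h5 : |(c a : ℝ) / R - (c0 a : ℝ) / R| ≤ 1 := by
        rw [abs_le]; constructor <;> linarith
      rw [← sub_div, abs_div, abs_of_pos hR, div_le_iff₀ hR, one_mul] at h5
      exact h5
    have h2 : ((T.filter (fun c => f c = v)).image (fun c => c a)).card = (T.filter (fun c => f c = v)).card := by
      apply Finset.card_image_of_injOn
      intro c hc c' hc' hcc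
      funext i
      by_cases hi : i = a
      · rw [hi]; exact hcc
      · rw [(hT c hc).2.1 i hi, (hT c' hc').2.1 i hi]
    have h3 : (T.filter (fun c => f c = v)).image (fun c => c a) ⊆ Finset.Icc (c0 a) (c0 a + ⌊L⌋₊) := by
      intro z hz
      rw [Finset.mem_image] at hz
      obtain ⟨c, hc, rfl⟩ := hz
      rw [Finset.mem_Icc]
      refine ⟨hmin c hc, ?_⟩
      have h4 := (abs_le.1 (hT c hc).2.2).2
      have h5 : ((c a - c0 a : ℤ) : ℝ) ≤ L := by
        push_cast
        exact h4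
      have h6 : c a - c0 a ≤ ⌊L⌋ := Int.le_floor.2 h5
      have h7 : (⌊L⌋₊ : ℤ) = ⌊L⌋ := Int.natCast_floor_eq_floor hL
      rw [h7]
      linarith
    have h4 := Finset.card_le_card h3
    rw [h2, Int.card_Icc] at h4
    refine h4.trans (le_of_eq ?_)
    have : c0 a + (⌊L⌋₊ : ℤ) + 1 - c0 a = ((⌊L⌋₊ + 1 : ℕ) : ℤ) := by push_cast; ring
    rw [this, Int.toNat_natCast]
  have h2 := Finset.card_le_mul_card_image T (⌊L⌋₊ + 1) h1
  -- the image
  have h3 : ((T.image f).card : ℝ) ≤ ∏ i, (2 * (Function.update (fun _ => D) a (D / R + 1) : Fin e → ℝ) i + 1) := by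
    apply card_nearw (T.image f) (Function.update z0 a ⌊(z0 a : ℝ) / R⌋)
    · intro i
      by_cases hi : i = a
      · rw [hi, Function.update_self]; positivity
      · rw [Function.update_of_ne hi]; exact hD
    · intro v hv i
      rw [Finset.mem_image] at hv
      obtain ⟨c, hc, rfl⟩ := hv
      by_cases hi : i = a
      · rw [hi]
        simp only [hf, Function.update_self]
        have f1 := Int.floor_le ((c a : ℝ) / R)
        have f2 := Int.lt_floor_add_one ((c a : ℝ) / R)
        have f3 := Int.floor_le ((z0 a : ℝ) / R)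
        have f4 := Int.lt_floor_add_one ((z0 a : ℝ) / R)
        have h5 : |(c a : ℝ) / R - (z0 a : ℝ) / R| ≤ D / R := by
          rw [← sub_div, abs_div, abs_of_pos hR]
          exact div_le_div_of_nonneg_right (h c hc a) hR.le
        rw [abs_le] at h5 ⊢
        constructor <;> linarith [h5.1, h5.2]
      · simp only [hf, Function.update_of_ne hi]
        exact h c hc i
  have h4 : ∏ i, (2 * (Function.update (fun _ => D) a (D / R + 1) : Fin e → ℝ) i + 1) =
      (2 * (D / R + 1) + 1) * (2 * D + 1) ^ (e - 1) := by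
    rw [← Finset.mul_prod_erase Finset.univ _ (Finset.mem_univ a), Function.update_self]
    congr 1
    rw [Finset.prod_congr rfl (g := fun _ => 2 * D + 1)]
    · rw [Finset.prod_const, Finset.card_erase_of_mem (Finset.mem_univ a), Finset.card_univ, Fintype.card_fin]
    · intro i hi
      rw [Function.update_of_ne (Finset.ne_of_mem_erase hi)]
  rw [h4] at h3
  have h5 : (T.card : ℝ) ≤ ((⌊L⌋₊ + 1 : ℕ) : ℝ) * ((T.image f).card : ℝ) := by exact_mod_cast h2
  refine h5.trans ?_
  have h6 : ((⌊L⌋₊ + 1 : ℕ) : ℝ) ≤ L + 1 := by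
    push_cast
    have := Nat.floor_le hL
    linarith
  exact mul_le_mul h6 h3 (Nat.cast_nonneg _) (by linarith)

end

end Pool.Agent.Helper14.MT1
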