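import Pool.Agent.Helper14.MT1.Grd
import Pool.Agent.Helper14.MT1.Sep

/-! ST 1: every type of leaves of a point of the line has slopes (from the theorem on typical derivatives). -/

set_option autoImplicit false

namespace Pool.Agent.Helper14.MT1

open Finset Filter Topology Matrix Pool.Agent.Helper69.RK Pool.Agent.Helper31.EC Pool.Agent.Helper31.EC.Sp
open Pool.Agent.Helper40.EL Pool.Agent.Helper84.MT

noncomputable section

/-! ### the exponent of a size -/

/-- the exponent of a size, between `0` and `1` -/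
def thx (n G : ℝ) : ℝ := if G = 0 then 1 else max 0 (min 1 (-Real.logb 2 G / n))

theorem thx_nonneg (n G : ℝ) : 0 ≤ thx n G := by
  unfold thx
  split_ifs
  · exact zero_le_one
  · exact le_max_left _ _

theorem thx_le_one (n G : ℝ) : thx n G ≤ 1 := by
  unfold thx
  split_ifs
  · exact le_rfl
  · exact max_le zero_le_one (min_le_left _ _)

theorem thx_up {n G K : ℝ} (hn : 0 < n) (hG : 0 ≤ G) (hK : G ≤ K) : G ≤ (K + 1) * 2 ^ (-thx n G * n) := by
  have hK0 : 0 ≤ K := hG.trans hK
  unfold thx
  split_ifs with h0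
  · rw [h0]; positivity
  have hG' : 0 < G := lt_of_le_of_ne hG (Ne.symm h0)
  have e1 : G = 2 ^ (-(-Real.logb 2 G / n) * n) := by
    rw [neg_mul, div_mul_cancel₀ _ hn.ne', neg_neg, Real.rpow_logb (by norm_num) (by norm_num) hG']
  set q := -Real.logb 2 G / n with hq
  rcases le_total q 0 with h1 | h1
  · have h2 : max 0 (min 1 q) = 0 := max_eq_left ((min_le_right _ _).trans h1)
    rw [h2, neg_zero, zero_mul, Real.rpow_zero]
    linarith
  · rcases le_total q 1 with h2 | h2
    · rw [min_eq_right h2, max_eq_right h1, ← e1]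
      nlinarith
    · rw [min_eq_left h2, max_eq_right zero_le_one]
      have h3 : G ≤ 2 ^ (-1 * n) := by
        rw [e1]
        apply Real.rpow_le_rpow_of_exponent_le (by norm_num)
        nlinarith
      have h4 : (0 : ℝ) ≤ 2 ^ (-1 * n) := by positivity
      nlinarith

theorem thx_lo {n G : ℝ} (hn : 0 < n) (hG : 0 ≤ G) (h : thx n G < 1) : 2 ^ (-thx n G * n) ≤ G := by
  unfold thx at h ⊢
  split_ifs at h ⊢ with h0
  · exact absurd h (lt_irrefl _)
  have hG' : 0 < G := lt_of_le_of_ne hG (Ne.symm h0)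
  have e1 : G = 2 ^ (-(-Real.logb 2 G / n) * n) := by
    rw [neg_mul, div_mul_cancel₀ _ hn.ne', neg_neg, Real.rpow_logb (by norm_num) (by norm_num) hG']
  set q := -Real.logb 2 G / n with hq
  have h1 : min 1 q < 1 := (le_max_right _ _).trans_lt h
  have h2 : q ≤ 1 := by
    by_contra hc
    push Not at hc
    rw [min_eq_left hc.le] at h1
    exact lt_irrefl _ h1
  have h3 : q ≤ max 0 (min 1 q) := by
    rw [min_eq_right h2]
    exact le_max_right _ _
  calc (2 : ℝ) ^ (-max 0 (min 1 q) * n) ≤ 2 ^ (-q * n) := by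
        apply Real.rpow_le_rpow_of_exponent_le (by norm_num)
        nlinarith
    _ = G := e1.symm

/-! ### functions on a cube -/

theorem hasDerivAt_upd {e : ℕ} {F : (Fin e → ℝ) → ℝ} {g : (Fin e → ℝ) → ℝ} {a : Fin e} {Y : Fin e → ℝ}
    (hg : ∀ y : Fin e → ℝ, (∀ j, |y j - Y j| < 1) → HasDerivAt (fun t => F (Function.update y a t)) (g y) (y a))
    {w : Fin e → ℝ} (hw : ∀ j, |w j - Y j| < 1) {t : ℝ} (ht : |t - Y a| < 1) :
    HasDerivAt (fun t => F (Function.update w a t)) (g (Function.update w a t)) t := by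
  have h1 := hg (Function.update w a t) (upd_lt hw ht)
  rw [Function.update_self] at h1
  have e1 : (fun t' => F (Function.update (Function.update w a t) a t')) = fun t' => F (Function.update w a t') := by
    funext t'
    rw [Function.update_idem]
  rwa [e1] at h1

/-- along a path -/
theorem path_le {e : ℕ} (F : (Fin e → ℝ) → ℝ) (g : Fin e → (Fin e → ℝ) → ℝ) (Y : Fin e → ℝ)
    (hg : ∀ a, ∀ y : Fin e → ℝ, (∀ j, |y j - Y j| < 1) →
      HasDerivAt (fun t => F (Function.update y a t)) (g a y) (y a))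
    (C : Fin e → ℝ) (hC : ∀ a, ∀ y : Fin e → ℝ, (∀ j, |y j - Y j| < 1) → |g a y| ≤ C a) (Y' : Fin e → ℝ)
    (hY' : ∀ j, |Y' j - Y j| < 1) : |F Y' - F Y| ≤ ∑ a, C a := by
  classical
  set w : Finset (Fin e) → Fin e → ℝ := fun s i => if i ∈ s then Y' i else Y i with hw
  have hwc : ∀ s i, |w s i - Y i| < 1 := by
    intro s i
    simp only [hw]
    split_ifs
    · exact hY' i
    · rw [sub_self, abs_zero]; exact one_pos
  have key : ∀ s : Finset (Fin e), |F (w s) - F Y| ≤ ∑ a ∈ s, C a := by
    intro s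
    induction s using Finset.induction_on with
    | empty =>
      have e1 : w ∅ = Y := by funext i; simp [hw]
      rw [e1, sub_self, abs_zero, Finset.sum_empty]
    | insert a s ha ih =>
      have e1 : w s = Function.update (w s) a (Y a) := by
        funext j
        by_cases hj : j = a
        · rw [hj, Function.update_self]; simp [hw, ha]
        · rw [Function.update_of_ne hj]
      have e2 : w (insert a s) = Function.update (w s) a (Y' a) := by
        funext j
        by_cases hj : j = a
        · rw [hj, Function.update_self]; simp [hw]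
        · rw [Function.update_of_ne hj]; simp [hw, hj]
      have h1 : ∀ t ∈ Set.Ioo (Y a - 1) (Y a + 1), |t - Y a| < 1 := by
        intro t ht
        rw [abs_lt]; constructor <;> linarith [ht.1, ht.2]
      have h2 : ∀ t, |t - Y a| < 1 → t ∈ Set.Ioo (Y a - 1) (Y a + 1) := by
        intro t ht
        rw [abs_lt] at ht
        constructor <;> linarith [ht.1, ht.2]
      have h3 := Convex.norm_image_sub_le_of_norm_hasDerivWithin_le (f := fun t => F (Function.update (w s) a t))
        (f' := fun t => g a (Function.update (w s) a t)) (s := Set.Ioo (Y a - 1) (Y a + 1)) (C := C a)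
        (x := Y a) (y := Y' a)
        (fun t ht => (hasDerivAt_upd (hg a) (hwc s) (h1 t ht)).hasDerivWithinAt)
        (fun t ht => by
          rw [Real.norm_eq_abs]
          exact hC a _ (upd_lt (hwc s) (h1 t ht))) (convex_Ioo _ _)
        (h2 _ (by rw [sub_self, abs_zero]; exact one_pos)) (h2 _ (hY' a))
      rw [Real.norm_eq_abs, Real.norm_eq_abs, ← e1, ← e2] at h3
      have hC0 : 0 ≤ C a := (abs_nonneg _).trans (hC a Y (fun j => by rw [sub_self, abs_zero]; exact one_pos))
      have h4 : C a * |Y' a - Y a| ≤ C a := by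
        have := mul_le_mul_of_nonneg_left (hY' a).le hC0
        linarith
      rw [Finset.sum_insert ha]
      have h5 : F (w (insert a s)) - F Y = (F (w (insert a s)) - F (w s)) + (F (w s) - F Y) := by ring
      rw [h5]
      refine (abs_add_le _ _).trans ?_
      linarith
  have e3 : w Finset.univ = Y' := by funext i; simp [hw]
  have h := key Finset.univ
  rwa [e3] at h

/-- a function whose derivative varies little -/
theorem low_le (φ ψ : ℝ → ℝ) (t0 r : ℝ) (hr : 0 ≤ r) (hφ : ∀ t, |t - t0| ≤ r → HasDerivAt φ (ψ t) t)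
    (hψ : ∀ t, |t - t0| ≤ r → |ψ t - ψ t0| ≤ |ψ t0| / 2) (t : ℝ) (ht : |t - t0| ≤ r) :
    |ψ t0| / 2 * |t - t0| ≤ |φ t - φ t0| := by
  have h1 : ∀ t ∈ Set.Icc (t0 - r) (t0 + r), |t - t0| ≤ r := by
    intro t ht
    rw [abs_le]; constructor <;> linarith [ht.1, ht.2]
  have h2 : ∀ t, |t - t0| ≤ r → t ∈ Set.Icc (t0 - r) (t0 + r) := by
    intro t ht
    rw [abs_le] at ht
    constructor <;> linarith [ht.1, ht.2]
  have h3 := Convex.norm_image_sub_le_of_norm_hasDerivWithin_le (f := fun t => φ t - ψ t0 * t)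
    (f' := fun t => ψ t - ψ t0) (s := Set.Icc (t0 - r) (t0 + r)) (C := |ψ t0| / 2) (x := t0) (y := t)
    (fun t ht => by
      have := (hφ t (h1 t ht)).sub ((hasDerivAt_id t).const_mul (ψ t0))
      rw [mul_one] at this
      exact this.hasDerivWithinAt)
    (fun t ht => by
      rw [Real.norm_eq_abs]
      exact hψ t (h1 t ht)) (convex_Icc _ _) (h2 _ (by rw [sub_self, abs_zero]; exact hr)) (h2 _ ht)
  rw [Real.norm_eq_abs, Real.norm_eq_abs] at h3
  have e1 : ψ t0 * (t - t0) = (φ t - φ t0) - ((φ t - ψ t0 * t) - (φ t0 - ψ t0 * t0)) := by ring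
  have h4 : |ψ t0| * |t - t0| ≤ |φ t - φ t0| + |(φ t - ψ t0 * t) - (φ t0 - ψ t0 * t0)| := by
    rw [← abs_mul, e1]
    exact abs_sub _ _
  linarith

end

end Pool.Agent.Helper14.MT1
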