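import Pool.Agent.Helper14.MT1.Exs

/-! ST 0 and ST 1 (from the theorem on typical derivatives). -/

set_option autoImplicit false

namespace Pool.Agent.Helper14.MT1

open Finset Filter Topology Matrix Pool.Agent.Helper69.RK Pool.Agent.Helper31.EC Pool.Agent.Helper31.EC.Sp
open Pool.Agent.Helper40.EL Pool.Agent.Helper84.MT Pool.Agent.Helper3.LF Pool.Agent.Helper89.LX

noncomputable section

variable {S : Sp} {E : ℕ → ℕ} {M : ℕ}

/-- (S2) -/
theorem s2_aux {Q : S.VV 1} (l : Leaf S Q E) (k : ℕ) (K : ℝ) (hK : 0 ≤ K) (G : (S.F k).Ω → Prop)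
    (hfn : ∀ ω ω', (S.F k).μ ω ≠ 0 → (S.F k).μ ω' ≠ 0 → (S.F k).Z ω ω' → l.La k ω ω' → l.F k ω = l.F k ω')
    (hd : Dat l k K G) (hρ : S.dl 1 k ≤ 1 / (4 * (K ^ 2 + 1))) (ω : (S.F k).Ω) (h1 : (S.F k).μ ω ≠ 0)
    (T : Finset (Fin l.e → ℤ)) (hT : ∀ a ∈ T, ∃ ω', (S.F k).μ ω' ≠ 0 ∧ G ω' ∧ Q.cellv 1 k ω' = Q.cellv 1 k ω ∧
      (S.F k).Z ω' ω ∧ (l.La k ⊓ Setoid.ker (l.Y.cellv 0 k)) ω' ω ∧ l.Y.cellv 1 k ω' = a) :
    (T.card : ℝ) ≤ ((l.e * K * (2 * (2 * K + 1 + K * l.e)) + 2) * (16 * (K ^ 2 + 1) + 3) * 8 ^ l.e) *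
      2 ^ ((l.e - 1 + thx (S.F k).n (Gr l k ω)) * (S.F k).n) := by
  have hn := (S.F k).pos
  have hδ := S.dl_pos 1 k
  set th := thx (S.F k).n (Gr l k ω) with hth
  set K2 : ℝ := l.e * K * (2 * (2 * K + 1 + K * l.e)) with hK2
  have hK20 : 0 ≤ K2 := by positivity
  have hc1 : (1 : ℝ) ≤ (K2 + 2) * (16 * (K ^ 2 + 1) + 3) := by nlinarith [sq_nonneg K]
  rcases lt_or_ge th 1 with ht | ht
  swap
  · have h2 := card_win0 l k ω T (fun a ha => by
      obtain ⟨ω', b1, b2, b3, b4, b5, b6⟩ := hT a ha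
      exact ⟨ω', b5, b6⟩)
    refine h2.trans ?_
    have e1 : (2 : ℝ) ^ (l.e * ((S.F k).n + 3)) = 8 ^ l.e * 2 ^ (l.e * (S.F k).n) := by
      rw [mul_add, Real.rpow_add (by norm_num), mul_comm]
      congr 1
      rw [mul_comm, Real.rpow_mul (by norm_num), Real.rpow_natCast]
      norm_num
    have e2 : (2 : ℝ) ^ (l.e * (S.F k).n) ≤ 2 ^ ((l.e - 1 + th) * (S.F k).n) := by
      apply Real.rpow_le_rpow_of_exponent_le (by norm_num)
      apply mul_le_mul_of_nonneg_right _ hn.le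
      linarith
    rw [e1]
    have e3 : (8 : ℝ) ^ l.e ≤ (K2 + 2) * (16 * (K ^ 2 + 1) + 3) * 8 ^ l.e := by
      have : (0 : ℝ) < 8 ^ l.e := by positivity
      nlinarith
    exact mul_le_mul e3 e2 (by positivity) (by positivity)
  -- the direction
  have hG0 : S.dl th k ≤ Gr l k ω := by
    rw [dl_eq]
    exact thx_lo hn (Gr_nonneg l k ω) ht
  have hGp : 0 < Gr l k ω := lt_of_lt_of_le (S.dl_pos th k) hG0
  have hex : ∃ a : Fin l.e, Gr l k ω ≤ l.e * |gr l 0 k ω a (l.Y.v k ω)| := by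
    by_contra hc
    push Not at hc
    have hne : (Finset.univ : Finset (Fin l.e)).Nonempty := by
      by_contra h0
      rw [Finset.not_nonempty_iff_eq_empty] at h0
      unfold Gr at hGp
      rw [h0, Finset.sum_empty] at hGp
      exact lt_irrefl _ hGp
    have h2 := Finset.sum_lt_sum_of_nonempty hne fun a _ => hc a
    rw [← Finset.mul_sum, Finset.sum_const, Finset.card_univ, Fintype.card_fin, nsmul_eq_mul] at h2
    exact lt_irrefl _ h2
  obtain ⟨a, ha⟩ := hex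
  have he1 : 1 ≤ l.e := by
    have := a.2
    omega
  set ρ : ℝ := 1 / (4 * (K ^ 2 + 1)) with hρd
  have hρ0 : 0 < ρ := by positivity
  have h2 := card_sep T (l.Y.cellv 1 k ω) a (2 ^ ((S.F k).n) + 1) (ρ / S.dl 1 k) (K2 * 2 ^ (th * (S.F k).n) + 1)
    (by positivity) (by positivity) (by positivity) (by
      intro c hc i
      obtain ⟨ω', b1, b2, b3, b4, b5, rfl⟩ := hT c hc
      apply floor_diff hδ
      have h3 : |l.Y.v k ω' i - l.Y.v k ω i| ≤ S.dl 0 k :=
        abs_sub_le_of_floor_eq (S.dl_pos 0 k) (congrFun b5.2 i)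
      refine h3.trans (le_of_eq ?_)
      unfold Sp.dl
      rw [← Real.rpow_add (by norm_num)]
      congr 1
      ring) (by
      intro c hc c' hc' hcc hR
      obtain ⟨ω', b1, b2, b3, b4, b5, b6⟩ := hT c hc
      obtain ⟨ω'', d1, d2, d3, d4, d5, d6⟩ := hT c' hc'
      have hb : c = l.Y.cellv 1 k ω' := b6.symm
      have hd' : c' = l.Y.cellv 1 k ω'' := d6.symm
      rw [hb, hd'] at hcc hR ⊢
      have hR' : |l.Y.v k ω'' a - l.Y.v k ω' a| ≤ 2 * ρ := by
        have f1 := Int.floor_le (l.Y.v k ω' a / S.dl 1 k)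
        have f2 := Int.lt_floor_add_one (l.Y.v k ω' a / S.dl 1 k)
        have f3 := Int.floor_le (l.Y.v k ω'' a / S.dl 1 k)
        have f4 := Int.lt_floor_add_one (l.Y.v k ω'' a / S.dl 1 k)
        have h5 : |l.Y.v k ω'' a / S.dl 1 k - l.Y.v k ω' a / S.dl 1 k| ≤ ρ / S.dl 1 k + 1 := by
          have h6 : |(⌊l.Y.v k ω' a / S.dl 1 k⌋ : ℝ) - ⌊l.Y.v k ω'' a / S.dl 1 k⌋| ≤ ρ / S.dl 1 k := hR
          rw [abs_le] at h6 ⊢
          constructor <;> linarith [h6.1, h6.2]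
        rw [← sub_div, abs_div, abs_of_pos hδ, div_le_iff₀ hδ, add_mul, div_mul_cancel₀ _ hδ.ne', one_mul] at h5
        linarith
      have hZ : (S.F k).Z ω' ω'' := (S.F k).Z.trans b4 ((S.F k).Z.symm d4)
      have hLa : l.La k ω' ω'' := (l.La k).trans b5.1 ((l.La k).symm d5.1)
      have h6 := sep_aux l k K hK G hfn hd hρ ω' ω'' b1 d1 b2 hZ hLa (b3.trans d3.symm) a hcc hR'
      -- the derivative at the other point
      have hF : l.F k ω' = l.F k ω := hfn ω' ω b1 h1 b4 b5.1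
      have h7 := (hd ω' b1).2.2.1 b2 a (l.Y.v k ω) (open_of_cell0 l.Y k ω ω' (Setoid.symm' _ b5.2))
      have e1 : gr l 0 k ω' a (l.Y.v k ω) = gr l 0 k ω a (l.Y.v k ω) := by
        unfold gr
        rw [hF]
      rw [e1] at h7
      have h8 : S.dl th k ≤ l.e * K * |gr l 0 k ω' a (l.Y.v k ω')| := by
        have h9 : (l.e : ℝ) * |gr l 0 k ω a (l.Y.v k ω)| ≤ l.e * (K * |gr l 0 k ω' a (l.Y.v k ω')|) :=
          mul_le_mul_of_nonneg_left h7 (Nat.cast_nonneg _)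
        linarith
      have h9 : |l.Y.v k ω'' a - l.Y.v k ω' a| * S.dl th k ≤ K2 * S.dl 1 k := by
        have h10 := mul_le_mul_of_nonneg_left h8 (abs_nonneg (l.Y.v k ω'' a - l.Y.v k ω' a))
        have h11 := mul_le_mul_of_nonneg_left h6 (show (0 : ℝ) ≤ l.e * K by positivity)
        rw [hK2]
        nlinarith
      have h10 : S.dl th k * 2 ^ (th * (S.F k).n) = 1 := by
        rw [dl_eq, ← Real.rpow_add (by norm_num), neg_mul, neg_add_cancel, Real.rpow_zero]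
      have h11 : |l.Y.v k ω'' a - l.Y.v k ω' a| ≤ K2 * 2 ^ (th * (S.F k).n) * S.dl 1 k := by
        have h12 := mul_le_mul_of_nonneg_right h9 (show (0 : ℝ) ≤ 2 ^ (th * (S.F k).n) by positivity)
        rw [mul_assoc, h10, mul_one] at h12
        linarith
      rw [abs_sub_comm] at h11
      exact floor_diff hδ h11)
  refine h2.trans ?_
  have hp : (1 : ℝ) ≤ 2 ^ ((S.F k).n) := Real.one_le_rpow (by norm_num) hn.le
  have hpt : (1 : ℝ) ≤ 2 ^ (th * (S.F k).n) := Real.one_le_rpow (by norm_num) (mul_nonneg (thx_nonneg _ _) hn.le)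
  have g1 : K2 * 2 ^ (th * (S.F k).n) + 1 + 1 ≤ (K2 + 2) * 2 ^ (th * (S.F k).n) := by nlinarith
  have g2 : 2 * ((2 ^ ((S.F k).n) + 1) / (ρ / S.dl 1 k) + 1) + 1 ≤ 16 * (K ^ 2 + 1) + 3 := by
    have g3 : (2 ^ ((S.F k).n) + 1) / (ρ / S.dl 1 k) ≤ 8 * (K ^ 2 + 1) := by
      have e1 : S.dl 1 k * 2 ^ ((S.F k).n) = 1 := by
        rw [dl_eq, ← Real.rpow_add (by norm_num)]
        have : -1 * (S.F k).n + (S.F k).n = 0 := by ring
        rw [this, Real.rpow_zero]
      have e2 : (2 ^ ((S.F k).n) + 1) / (ρ / S.dl 1 k) = (1 + S.dl 1 k) / ρ := by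
        rw [div_div_eq_mul_div]
        congr 1
        linarith
      have e3 : ρ ≤ 1 := by
        rw [hρd, div_le_one (by positivity)]
        nlinarith [sq_nonneg K]
      rw [e2, div_le_iff₀ hρ0]
      have e4 : 8 * (K ^ 2 + 1) * ρ = 2 := by
        rw [hρd]
        field_simp
        norm_num
      rw [e4]
      linarith
    linarith
  have g4 : (2 * (2 ^ ((S.F k).n) + 1) + 1 : ℝ) ^ (l.e - 1) ≤ 8 ^ l.e * 2 ^ ((l.e - 1) * (S.F k).n) := by
    have e1 : (2 * (2 ^ ((S.F k).n) + 1) + 1 : ℝ) ≤ 8 * 2 ^ ((S.F k).n) := by linarith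
    refine (pow_le_pow_left₀ (by positivity) e1 _).trans ?_
    rw [mul_pow]
    have e2 : ((2 : ℝ) ^ ((S.F k).n)) ^ (l.e - 1) = 2 ^ ((l.e - 1) * (S.F k).n) := by
      rw [← Real.rpow_natCast, ← Real.rpow_mul (by norm_num), Nat.cast_sub he1, Nat.cast_one, mul_comm]
    rw [e2]
    apply mul_le_mul_of_nonneg_right _ (by positivity)
    exact pow_le_pow_right₀ (by norm_num) (Nat.sub_le _ _)
  have g5 : (2 : ℝ) ^ ((l.e - 1 + th) * (S.F k).n) = 2 ^ ((l.e - 1) * (S.F k).n) * 2 ^ (th * (S.F k).n) := by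
    rw [← Real.rpow_add (by norm_num)]
    congr 1
    ring
  calc (K2 * 2 ^ (th * (S.F k).n) + 1 + 1) * ((2 * ((2 ^ ((S.F k).n) + 1) / (ρ / S.dl 1 k) + 1) + 1) *
        (2 * (2 ^ ((S.F k).n) + 1) + 1) ^ (l.e - 1)) ≤
        ((K2 + 2) * 2 ^ (th * (S.F k).n)) * ((16 * (K ^ 2 + 1) + 3) *
          (8 ^ l.e * 2 ^ ((l.e - 1) * (S.F k).n))) := by
        apply mul_le_mul g1 _ (by positivity) (by positivity)
        exact mul_le_mul g2 g4 (by positivity) (by positivity)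
    _ = _ := by rw [g5]; ring

/-- EVERY TYPE OF LEAVES OF A POINT OF THE LINE HAS SLOPES -/
theorem exists_slp (hT : TypD) {Q : S.VV 1} (l : Leaf S Q E) : Nonempty (Slp l) := by
  classical
  obtain ⟨K, G, hK, hG, hall⟩ := grd_all hT l 0
  have he : (0 : ℝ) ≤ l.e := Nat.cast_nonneg _
  have hKf : S.Sub (fun k => (2 * K k + K k * (l.e * K k + 1)) +
      (l.e * K k * (2 * (2 * K k + 1 + K k * l.e)) + 2) * (16 * (K k ^ 2 + 1) + 3) * 8 ^ l.e) := by
    have h2 : S.Sub (fun k => 2 * K k) := (S.Sub_const (by norm_num)).mul hK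
    have hE : S.Sub (fun _ => (l.e : ℝ)) := S.Sub_const he
    have h3 : S.Sub (fun k => K k ^ 2) := by
      have := hK.mul hK
      simpa only [← pow_two] using this
    refine (h2.add (hK.mul ((hE.mul hK).add (S.Sub_const zero_le_one)))).add ?_
    refine ((((hE.mul hK).mul ((S.Sub_const (by norm_num)).mul ((h2.add (S.Sub_const zero_le_one)).add
      (hK.mul hE)))).add (S.Sub_const (by norm_num))).mul (((S.Sub_const (by norm_num)).mul
      (h3.add (S.Sub_const zero_le_one))).add (S.Sub_const (by norm_num)))).mul (S.Sub_const (by positivity))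
  have hρ : ∀ᶠ k in UF, S.dl 1 k ≤ 1 / (4 * (K k ^ 2 + 1)) := by
    have h3 : S.Sub (fun k => 4 * (K k ^ 2 + 1)) := by
      have h4 : S.Sub (fun k => K k ^ 2) := by
        have := hK.mul hK
        simpa only [← pow_two] using this
      exact (S.Sub_const (by norm_num)).mul (h4.add (S.Sub_const zero_le_one))
    filter_upwards [h3.eventually_le one_pos] with k hk
    rw [le_div_iff₀ (by positivity), dl_eq]
    have e1 : (2 : ℝ) ^ (-1 * (S.F k).n) * 2 ^ (1 * (S.F k).n) = 1 := by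
      rw [← Real.rpow_add (by norm_num)]
      have : -1 * (S.F k).n + 1 * (S.F k).n = 0 := by ring
      rw [this, Real.rpow_zero]
    have h5 : (0 : ℝ) ≤ 2 ^ (-1 * (S.F k).n) := by positivity
    calc (2 : ℝ) ^ (-1 * (S.F k).n) * (4 * (K k ^ 2 + 1)) ≤ 2 ^ (-1 * (S.F k).n) * 2 ^ (1 * (S.F k).n) :=
          mul_le_mul_of_nonneg_left (by linarith) h5
      _ = 1 := e1
  refine ⟨{ th := fun k ω => thx (S.F k).n (Gr l k ω), dr := fun _ _ => 0, G := G, K := _, tG := hG, sK := hKf,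
            rg := ?_, s1 := ?_, s2 := ?_ }⟩
  · exact Eventually.of_forall fun k ω _ => ⟨thx_nonneg _ _, thx_le_one _ _, Nat.zero_le _⟩
  · filter_upwards [hall, l.fn] with k h1 h2 ω ω' a1 a2 a3 a4 a5 a6
    have h3 := s1_aux l k (K k) h1.1 (G k) h2 h1.2 ω ω' a1 a2 a3 a5 a6
    refine h3.trans (mul_le_mul_of_nonneg_right ?_ (S.dl_pos _ k).le)
    have hK0 := h1.1
    have : 0 ≤ (l.e * K k * (2 * (2 * K k + 1 + K k * l.e)) + 2) * (16 * (K k ^ 2 + 1) + 3) * 8 ^ l.e := by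
      positivity
    linarith
  · filter_upwards [hall, l.fn, hρ] with k h1 h2 h3 ω a1 a2 T a3
    have h4 := s2_aux l k (K k) h1.1 (G k) h2 h1.2 h3 ω a1 T (fun a ha => by
      obtain ⟨ω', b1, b2, b3, b4, b5, b6, b7⟩ := a3 a ha
      exact ⟨ω', b1, b2, b4, b5, b6, b7⟩)
    refine h4.trans (mul_le_mul_of_nonneg_right ?_ (by positivity))
    have hK0 := h1.1
    have : 0 ≤ 2 * K k + K k * (l.e * K k + 1) := by positivity
    linarith

/-- ST 0 -/
theorem st_zero : ST 0 := by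
  intro g r
  refine ⟨0, fun D _ S s x hx => ?_⟩
  have h1 : vol s.Q D x = 0 := by
    unfold vol
    have h2 : (fun k => ∑ ω, (x k).l.T.μ ω *
      (Real.logb 2 (GQ (S.dl 1 k) ((x k).g ω) (s.Q.v k ((x k).l.p.π ω))) / (2 * (S.F k).n))) = fun _ => (0 : ℝ) := by
      funext k
      apply Finset.sum_eq_zero
      intro ω _
      unfold GQ
      rw [Matrix.det_isEmpty, Real.logb_one, zero_div, mul_zero]
    rw [h2, ul_const]
    simp
  rw [h1]
  exact H_nonneg _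

/-- ST 1 -/
theorem st_one (hT : TypD) : ST 1 := by
  intro g r
  refine ⟨1, fun D hD S s x hx => ?_⟩
  exact st1_of_slp (fun i => (exists_slp hT (s.lf i)).some) hD hx

end

end Pool.Agent.Helper14.MT1
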